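import Mathlib
import Pool.Agent.MP_c1dca2_ag.GT.P0

set_option autoImplicit false
set_option linter.unusedSectionVars false

open Polynomial

namespace GTP

open GT

/-! ## separating elements of a function field over an algebraically closed field -/

variable {C L : Type} [Field C] [Field L] [Algebra C L]

theorem ff_ess (hF : FF C L) : Algebra.EssFiniteType C L := by
  obtain ⟨t, ht⟩ := hF.ex
  have h1 := hF.fin t ht
  have h2 : Algebra.EssFiniteType C (IntermediateField.adjoin C {t}) :=
    IntermediateField.essFiniteType_iff.2 ⟨{t}, by simp⟩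
  exact Algebra.EssFiniteType.comp C (IntermediateField.adjoin C {t}) L

open scoped IntermediateField.algebraAdjoinAdjoin in
theorem ff_trdeg (hF : FF C L) : Algebra.trdeg C L = 1 := by
  obtain ⟨t, ht⟩ := hF.ex
  have h1 := hF.fin t ht
  have h2 : IsTranscendenceBasis C (fun _ : Unit => t) := by
    have hi : AlgebraicIndependent C (fun _ : Unit => t) :=
      algebraicIndependent_unique_type_iff.2 ht
    refine hi.isTranscendenceBasis_iff_isAlgebraic.2 ?_
    have h3 : Algebra.IsAlgebraic (IntermediateField.adjoin C {t}) L := inferInstance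
    have h4 : Algebra.IsAlgebraic (Algebra.adjoin C ({t} : Set L)) L :=
      (IsFractionRing.comap_isAlgebraic_iff (A := Algebra.adjoin C {t})
        (K := IntermediateField.adjoin C {t}) (C := L)).2 h3
    have h5 : Set.range (fun _ : Unit => t) = {t} := by ext; simp [eq_comm]
    rw [h5]
    exact h4
  rw [← h2.cardinalMk_eq_trdeg]
  simp

/-- a separating element -/
theorem exists_sep [PerfectField C] (hF : FF C L) : ∃ s : L,
    Algebra.IsSeparable (IntermediateField.adjoin C {s}) L := by
  have h1 := ff_ess hF
  obtain ⟨s, hs, hs'⟩ := exists_isTranscendenceBasis_and_isSeparable_of_perfectField C L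
  have h2 := hs.cardinalMk_eq_trdeg
  rw [ff_trdeg hF] at h2
  have h3 : s.card = 1 := by
    have : (Cardinal.mk s) = (s.card : Cardinal) := by simp
    rw [this] at h2
    exact_mod_cast h2
  obtain ⟨a, rfl⟩ := Finset.card_eq_one.1 h3
  refine ⟨a, ?_⟩
  rwa [Finset.coe_singleton] at hs'

theorem p_deg {p : ℕ} [hp : Fact p.Prime] [CharP L p] (K₀ : Subfield L)
    (hK : ∀ x : L, x ∈ K₀ ↔ ∃ y, y ^ p = x) (s : L) (hs : IntermediateField.adjoin K₀ {s} = ⊤) (u : L)
    (hu : u ∉ K₀) : IntermediateField.adjoin K₀ {u} = ⊤ := by
  have hmem : ∀ x : L, x ^ p ∈ K₀ := fun x => (hK _).2 ⟨x, rfl⟩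
  have hint : ∀ x : L, IsIntegral K₀ x := by
    intro x
    refine ⟨X ^ p - C ⟨x ^ p, hmem x⟩, monic_X_pow_sub_C _ hp.out.ne_zero, ?_⟩
    rw [eval₂_sub, eval₂_pow, eval₂_X, eval₂_C]
    exact sub_self _
  have hle : Module.finrank K₀ L ≤ p := by
    rw [← IntermediateField.finrank_top', ← hs, IntermediateField.adjoin.finrank (hint s)]
    have h1 : minpoly K₀ s ∣ X ^ p - C ⟨s ^ p, hmem s⟩ := by
      refine minpoly.dvd _ _ ?_
      rw [map_sub, map_pow, aeval_X, aeval_C]
      exact sub_self _
    have h2 := natDegree_le_of_dvd h1 (monic_X_pow_sub_C _ hp.out.ne_zero).ne_zero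
    rwa [natDegree_X_pow_sub_C] at h2
  have hfd : FiniteDimensional K₀ L := by
    have h3 := IntermediateField.adjoin.finiteDimensional (hint s)
    rw [hs] at h3
    exact LinearEquiv.finiteDimensional (IntermediateField.topEquiv (F := K₀) (E := L)).toLinearEquiv
  have hirr : Irreducible (X ^ p - C (⟨u ^ p, hmem u⟩ : K₀)) := by
    refine X_pow_sub_C_irreducible_of_prime hp.out ?_
    intro b hb
    have h4 : (b : L) ^ p = u ^ p := congrArg (fun z : K₀ => (z : L)) hb
    have h5 : (b : L) = u := frobenius_inj L p h4
    exact hu (h5 ▸ b.2)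
  have hmin : minpoly K₀ u = X ^ p - C (⟨u ^ p, hmem u⟩ : K₀) := by
    refine (minpoly.eq_of_irreducible_of_monic hirr ?_ (monic_X_pow_sub_C _ hp.out.ne_zero)).symm
    rw [map_sub, map_pow, aeval_X, aeval_C]
    exact sub_self _
  refine IntermediateField.eq_of_le_of_finrank_le le_top ?_
  rw [IntermediateField.finrank_top', IntermediateField.adjoin.finrank (hint u), hmin,
    natDegree_X_pow_sub_C]
  exact hle

/-- if `L = E L ^ p` then `L / E` is separable -/
theorem sep_of_top {p : ℕ} [hp : Fact p.Prime] [CharP L p] (E : IntermediateField C L)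
    [FiniteDimensional E L]
    (h : ∀ W : Subfield L, (∀ x ∈ E, x ∈ W) → (∀ y : L, y ^ p ∈ W) → ∀ x : L, x ∈ W) :
    Algebra.IsSeparable E L := by
  have hE : CharP E p := (RingHom.charP_iff (algebraMap E L) (algebraMap E L).injective p).2 ‹_›
  have hE' : ExpChar E p := ExpChar.prime hp.out
  have hpi : IsPurelyInseparable (separableClosure E L) L := inferInstance
  have hS' : ExpChar (separableClosure E L) p := expChar_of_injective_algebraMap
    (algebraMap E (separableClosure E L)).injective p
  -- all elements have a power in the separable closure, uniformly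
  obtain ⟨n, hn⟩ : ∃ n : ℕ, ∀ x : L, x ^ p ^ n ∈ separableClosure E L := by
    let b := Module.finBasis E L
    have h1 : ∀ x : L, ∃ n : ℕ, x ^ p ^ n ∈ separableClosure E L := by
      intro x
      obtain ⟨n, y, hy⟩ := (isPurelyInseparable_iff_pow_mem (separableClosure E L) p).1 hpi x
      exact ⟨n, hy ▸ y.2⟩
    choose m hm using fun i => h1 (b i)
    have h2 : ∀ i, b i ^ p ^ (Finset.univ.sup m) ∈ separableClosure E L := by
      intro i
      obtain ⟨j, hj⟩ := Nat.exists_eq_add_of_le (Finset.le_sup (f := m) (Finset.mem_univ i))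
      rw [hj, pow_add, pow_mul]
      exact pow_mem (hm i) _
    refine ⟨Finset.univ.sup m, fun x => ?_⟩
    rw [← b.sum_repr x, sum_pow_char_pow]
    refine sum_mem fun i _ => ?_
    rw [Algebra.smul_def, mul_pow]
    refine mul_mem (pow_mem ?_ _) (h2 i)
    exact (separableClosure E L).algebraMap_mem _
  -- `L = E L ^ (p ^ n)`
  have key : ∀ (n : ℕ) (W : Subfield L), (∀ x ∈ E, x ∈ W) → (∀ y : L, y ^ p ^ n ∈ W) →
      ∀ x : L, x ∈ W := by
    intro n
    induction n with
    | zero =>
      intro W _ h2 x
      have := h2 x
      rwa [pow_zero, pow_one] at this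
    | succ n ih =>
      intro W h1 h2
      refine h W h1 ?_
      intro y
      have h3 : ∀ x : L, x ∈ W.comap (frobenius L p) := by
        refine ih _ ?_ ?_
        · intro x hx
          exact pow_mem (h1 x hx) p
        · intro y
          show (y ^ p ^ n) ^ p ∈ W
          rw [← pow_mul, ← pow_succ]
          exact h2 y
      exact h3 y
  refine (separableClosure.eq_top_iff E L).1 ?_
  rw [eq_top_iff]
  intro x _
  exact key n (separableClosure E L).toSubfield
    (fun x hx => (separableClosure E L).algebraMap_mem ⟨x, hx⟩) hn x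

/-- a transcendental element which is not a `p`-th power is separating -/
theorem sep_of_not_pow [IsAlgClosed C] (hF : FF C L) {p : ℕ} [hp : Fact p.Prime] [CharP C p]
    {u : L} (hu : Transcendental C u) (h : ∀ v : L, v ^ p ≠ u) :
    Algebra.IsSeparable (IntermediateField.adjoin C {u}) L := by
  have hL : CharP L p := (RingHom.charP_iff (algebraMap C L) (algebraMap C L).injective p).1 ‹_›
  have hfin := hF.fin u hu
  obtain ⟨s, hs⟩ := exists_sep hF
  let K₀ : Subfield L := (frobenius L p).fieldRange
  have hK : ∀ x : L, x ∈ K₀ ↔ ∃ y, y ^ p = x := fun x => Iff.rfl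
  have hC : ∀ c : C, algebraMap C L c ∈ K₀ := by
    intro c
    obtain ⟨e, he⟩ := IsAlgClosed.exists_pow_nat_eq c hp.out.pos
    exact ⟨algebraMap C L e, by show algebraMap C L e ^ p = _; rw [← map_pow, he]⟩
  have hE : CharP (IntermediateField.adjoin C {s}) p :=
    (RingHom.charP_iff (algebraMap C _) (algebraMap C _).injective p).1 ‹_›
  have hE' : ExpChar (IntermediateField.adjoin C {s}) p := ExpChar.prime hp.out
  have htop : IntermediateField.adjoin K₀ {s} = ⊤ := by
    rw [eq_top_iff]
    intro a _
    have h1 := IntermediateField.adjoin_simple_eq_adjoin_pow_expChar_of_isSeparable'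
      (IntermediateField.adjoin C {s}) L a p
    have h2 : a ∈ IntermediateField.adjoin (IntermediateField.adjoin C {s}) {a ^ p} := by
      rw [← h1]
      exact IntermediateField.mem_adjoin_simple_self _ a
    let W := IntermediateField.adjoin K₀ {s}
    have h3 : ∀ x ∈ IntermediateField.adjoin C {s}, x ∈ W := by
      intro x hx
      induction hx using IntermediateField.adjoin_induction with
      | mem x hx =>
        rw [Set.mem_singleton_iff] at hx
        rw [hx]
        exact IntermediateField.mem_adjoin_simple_self _ s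
      | algebraMap x => exact W.algebraMap_mem ⟨_, hC x⟩
      | add x y _ _ hx hy => exact add_mem hx hy
      | inv x _ hx => exact inv_mem hx
      | mul x y _ _ hx hy => exact mul_mem hx hy
    have h4 : ∀ y ∈ IntermediateField.adjoin (IntermediateField.adjoin C {s}) {a ^ p}, y ∈ W := by
      intro y hy
      induction hy using IntermediateField.adjoin_induction with
      | mem x hx =>
        rw [Set.mem_singleton_iff] at hx
        rw [hx]
        exact W.algebraMap_mem ⟨_, ⟨a, rfl⟩⟩
      | algebraMap x => exact h3 x x.2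
      | add x y _ _ hx hy => exact add_mem hx hy
      | inv x _ hx => exact inv_mem hx
      | mul x y _ _ hx hy => exact mul_mem hx hy
    exact h4 a h2
  have hu' : u ∉ K₀ := by
    rintro ⟨v, hv⟩
    exact h v hv
  have htop' := p_deg K₀ hK s htop u hu'
  refine sep_of_top (p := p) (IntermediateField.adjoin C {u}) ?_
  intro W h1 h2 x
  have hx : x ∈ IntermediateField.adjoin K₀ {u} := by rw [htop']; trivial
  induction hx using IntermediateField.adjoin_induction with
  | mem x hx =>
    rw [Set.mem_singleton_iff] at hx
    rw [hx]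
    exact h1 u (IntermediateField.mem_adjoin_simple_self _ u)
  | algebraMap x =>
    obtain ⟨y, hy⟩ := x.2
    have := h2 y
    rwa [show y ^ p = (x : L) from hy] at this
  | add x y _ _ hx hy => exact add_mem hx hy
  | inv x _ hx => exact inv_mem hx
  | mul x y _ _ hx hy => exact mul_mem hx hy

theorem pow_coeff {m : ℕ} (hm : 0 < m) (q : Fin m → C[X])
    (h : ∑ i, expand C m (q i) * X ^ (i : ℕ) = 0) : ∀ i, q i = 0 := by
  intro i
  ext j
  have h1 := congrArg (fun r => r.coeff (j * m + i)) h
  simp only [finsetSum_coeff, coeff_zero] at h1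
  rw [Finset.sum_eq_single i] at h1
  · rw [coeff_mul_X_pow, coeff_expand_mul hm] at h1
    rw [h1, coeff_zero]
  · intro b _ hb
    rw [coeff_mul_X_pow']
    split_ifs with h2
    · rw [coeff_expand hm, if_neg]
      intro h3
      apply hb
      apply Fin.ext
      have hb' := b.2
      have hi' := i.2
      have h4 : (j * m + i) % m = b % m := by
        have h5 : (j * m + (i : ℕ)) = (j * m + i - b) + b := by omega
        rw [h5, Nat.add_mod, Nat.mod_eq_zero_of_dvd h3, zero_add, Nat.mod_mod]
      rw [Nat.mul_add_mod_self_right, Nat.mod_eq_of_lt hi', Nat.mod_eq_of_lt hb'] at h4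
      exact h4.symm
    · rfl
  · intro h2
    exact absurd (Finset.mem_univ _) h2

open scoped IntermediateField.algebraAdjoinAdjoin in
theorem pow_indep {u : L} (hu : Transcendental C u) {m : ℕ} (hm : 0 < m) :
    LinearIndependent (IntermediateField.adjoin C {u ^ m}) (fun i : Fin m => u ^ (i : ℕ)) := by
  rw [← LinearIndependent.iff_fractionRing (Algebra.adjoin C {u ^ m})
    (IntermediateField.adjoin C {u ^ m})]
  rw [Fintype.linearIndependent_iff]
  intro g hg
  have h1 : ∀ y : Algebra.adjoin C {u ^ m}, ∃ q : C[X], aeval (u ^ m) q = (y : L) := by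
    intro y
    obtain ⟨y, hy⟩ := y
    rw [Algebra.adjoin_singleton_eq_range_aeval] at hy
    exact hy
  choose q hq using fun i => h1 (g i)
  have h2 : aeval u (∑ i, expand C m (q i) * X ^ (i : ℕ)) = 0 := by
    rw [map_sum, ← hg]
    refine Finset.sum_congr rfl fun i _ => ?_
    rw [map_mul, expand_aeval, map_pow, aeval_X, hq i]
    rfl
  have h3 : ∑ i, expand C m (q i) * X ^ (i : ℕ) = 0 := by
    by_contra h4
    exact h4 ((transcendental_iff.1 hu) _ h2)
  intro i
  apply Subtype.ext
  rw [← hq i, pow_coeff hm q h3 i, map_zero]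
  rfl

/-- `[L : C(u ^ m)] = m [L : C(u)]` -/
theorem finrank_pow (hF : FF C L) {u : L} (hu : Transcendental C u) {m : ℕ} (hm : 0 < m) :
    m * Module.finrank (IntermediateField.adjoin C {u}) L ≤
      Module.finrank (IntermediateField.adjoin C {u ^ m}) L := by
  have hle : IntermediateField.adjoin C {u ^ m} ≤ IntermediateField.adjoin C {u} := by
    rw [IntermediateField.adjoin_simple_le_iff]
    exact pow_mem (IntermediateField.mem_adjoin_simple_self C u) m
  have ht : Transcendental C (u ^ m) := by
    intro h
    exact hu (h.of_pow hm)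
  have hfin := hF.fin _ ht
  rw [← IntermediateField.relfinrank_mul_finrank_top hle]
  refine Nat.mul_le_mul_right _ ?_
  rw [IntermediateField.relfinrank_eq_finrank_of_le hle]
  have h1 := pow_indep hu hm
  let v : Fin m → IntermediateField.extendScalars hle := fun i =>
    ⟨u ^ (i : ℕ), pow_mem (IntermediateField.mem_adjoin_simple_self C u) _⟩
  have h2 : LinearIndependent (IntermediateField.adjoin C {u ^ m}) v :=
    LinearIndependent.of_comp (IntermediateField.extendScalars hle).val.toLinearMap h1
  have h3 := h2.fintype_card_le_finrank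
  rwa [Fintype.card_fin] at h3

/-- every transcendental element is a power of a separating element -/
theorem sep_root [IsAlgClosed C] (hF : FF C L) {t : L} (ht : Transcendental C t) :
    ∃ (u : L) (m : ℕ), 0 < m ∧ t = u ^ m ∧ Transcendental C u ∧
      Algebra.IsSeparable (IntermediateField.adjoin C {u}) L ∧
      m * Module.finrank (IntermediateField.adjoin C {u}) L ≤
      Module.finrank (IntermediateField.adjoin C {t}) L := by
  obtain hc | ⟨p, hp, hpk⟩ := CharP.exists' C
  · have hfin := hF.fin t ht
    have hchar : CharZero (IntermediateField.adjoin C {t}) :=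
      charZero_of_injective_algebraMap (algebraMap C _).injective
    exact ⟨t, 1, one_pos, (pow_one t).symm, ht, inferInstance, by rw [one_mul]⟩
  · obtain ⟨n, hn⟩ : ∃ n, n = Module.finrank (IntermediateField.adjoin C {t}) L := ⟨_, rfl⟩
    induction n using Nat.strong_induction_on generalizing t with
    | _ n ih =>
      by_cases h : ∀ v : L, v ^ p ≠ t
      · exact ⟨t, 1, one_pos, (pow_one t).symm, ht, sep_of_not_pow hF ht h, by rw [one_mul]⟩
      · push Not at h
        obtain ⟨v, rfl⟩ := h
        have hv : Transcendental C v := fun h => ht (h.pow p)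
        have h1 := finrank_pow hF hv hp.out.pos
        have hfin := hF.fin v hv
        have h2 : 0 < Module.finrank (IntermediateField.adjoin C {v}) L := Module.finrank_pos
        have h3 : Module.finrank (IntermediateField.adjoin C {v}) L < n := by
          rw [hn]
          refine lt_of_lt_of_le ?_ h1
          have := hp.out.two_le
          nlinarith
        obtain ⟨u, m, hm, hvu, hu, hsep, hle⟩ := ih _ h3 hv rfl
        refine ⟨u, m * p, Nat.mul_pos hm hp.out.pos, by rw [hvu, pow_mul], hu, hsep, ?_⟩
        calc m * p * Module.finrank (IntermediateField.adjoin C {u}) L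
            = p * (m * Module.finrank (IntermediateField.adjoin C {u}) L) := by ring
          _ ≤ p * Module.finrank (IntermediateField.adjoin C {v}) L := Nat.mul_le_mul_left p hle
          _ ≤ _ := h1

end GTP
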