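import Mathlib
import Pool.Agent.MP_c1dca2_ag.GT.P0
import Pool.Agent.MP_c1dca2_ag.GT.P2a
import Pool.Agent.TIFCRV.Sep

set_option autoImplicit false

open Polynomial

namespace GTP

open GT

/-! ## [GT-P2b] the integral closure of `C[t]` -/

variable {C L : Type} [Field C] [Field L] [Algebra C L]

theorem p2b_ex (t : L) (y : Algebra.adjoin C {t}) : ∃ q : C[X], aeval t q = (y : L) := by
  obtain ⟨y, hy⟩ := y
  rw [Algebra.adjoin_singleton_eq_range_aeval] at hy
  exact hy

theorem p2b_pid (t : L) : IsPrincipalIdealRing (Algebra.adjoin C {t}) := by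
  have h1 : ∀ y : Algebra.adjoin C {t}, ∃ q : C[X], aeval t q = (y : L) := by
    intro y
    obtain ⟨y, hy⟩ := y
    rw [Algebra.adjoin_singleton_eq_range_aeval] at hy
    exact hy
  let φ : C[X] →ₐ[C] Algebra.adjoin C {t} := aeval ⟨t, Algebra.subset_adjoin (Set.mem_singleton t)⟩
  have hφ : Function.Surjective φ := by
    intro y
    obtain ⟨q, hq⟩ := h1 y
    refine ⟨q, Subtype.ext ?_⟩
    rw [← hq]
    show (Algebra.adjoin C {t}).val (φ q) = _
    rw [← Polynomial.aeval_algHom_apply]
    rfl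
  exact IsPrincipalIdealRing.of_surjective φ.toRingHom hφ

theorem rt_ded_equiv {A B : Type} [CommRing A] [CommRing B] (e : A ≃+* B) (h : IsDedekindDomain B) :
    IsDedekindDomain A := by
  have h1 : IsDomain A := e.toMulEquiv.isDomain B
  have h2 : IsNoetherianRing A := isNoetherianRing_of_ringEquiv B e.symm
  have h3 : Ring.DimensionLEOne A := by
    refine ⟨fun {p} hp hpp => ?_⟩
    have h4 : (p.comap (e.symm : B →+* A)).IsPrime := Ideal.comap_isPrime _ _
    have h5 : p.comap (e.symm : B →+* A) ≠ ⊥ := by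
      intro h6
      apply hp
      rw [eq_bot_iff]
      intro x hx
      have h7 : e x ∈ p.comap (e.symm : B →+* A) := by
        rw [Ideal.mem_comap]; simpa using hx
      rw [h6, Ideal.mem_bot] at h7
      rw [Ideal.mem_bot]
      exact (map_eq_zero_iff e e.injective).mp h7
    have h6 : (p.comap (e.symm : B →+* A)).IsMaximal := h4.isMaximal h5
    have h7 : p = (p.comap (e.symm : B →+* A)).comap (e : A →+* B) := by
      ext x
      rw [Ideal.mem_comap, Ideal.mem_comap]
      simp
    rw [h7]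
    exact Ideal.comap_isMaximal_of_surjective _ e.surjective
  have h4 : IsIntegrallyClosed A := IsIntegrallyClosed.of_equiv e.symm
  exact { h1, h2, h3, h4 with }

open scoped IntermediateField.algebraAdjoinAdjoin in
theorem rt_dedekind_sep (hF : FF C L) {t : L} (ht : Transcendental C t)
    (hsep : Algebra.IsSeparable (IntermediateField.adjoin C {t}) L) :
    IsDedekindDomain (Rt C t) := by
  have hpid := p2b_pid (C := C) t
  have hfin := hF.fin t ht
  exact integralClosure.isDedekindDomain (Algebra.adjoin C {t}) (IntermediateField.adjoin C {t}) L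

theorem rt_pow (u : L) {m : ℕ} (hm : 0 < m) (f : L) : f ∈ Rt C (u ^ m) ↔ f ∈ Rt C u := by
  rw [rt_mem, rt_mem]
  have h1 : ∀ V : ValuationSubring L, u ^ m ∈ V ↔ u ∈ V := by
    intro V
    rw [← V.valuation_le_one_iff, ← V.valuation_le_one_iff, map_pow]
    exact pow_le_one_iff hm.ne'
  exact ⟨fun h V hV hu => h V hV ((h1 V).2 hu), fun h V hV hu => h V hV ((h1 V).1 hu)⟩

/-- two subalgebras, over different base rings, with the same elements -/
def rtE_aux {R₁ R₂ K : Type} [CommRing R₁] [CommRing R₂] [Field K] [Algebra R₁ K] [Algebra R₂ K]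
    (S₁ : Subalgebra R₁ K) (S₂ : Subalgebra R₂ K) (h : ∀ x, x ∈ S₁ ↔ x ∈ S₂) : S₁ ≃+* S₂ where
  toFun x := ⟨x, (h x).1 x.2⟩
  invFun x := ⟨x, (h x).2 x.2⟩
  left_inv _ := rfl
  right_inv _ := rfl
  map_mul' _ _ := rfl
  map_add' _ _ := rfl

/-- `Rt C (u ^ m) = Rt C u` -/
def rtE (u : L) {m : ℕ} (hm : 0 < m) : Rt C (u ^ m) ≃+* Rt C u :=
  rtE_aux (Rt C (u ^ m)) (Rt C u) (rt_pow u hm)

theorem rt_dedekind [IsAlgClosed C] (hF : FF C L) {t : L} (ht : Transcendental C t) :
    IsDedekindDomain (Rt C t) := by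
  obtain ⟨u, m, hm, rfl, hu, hsep, -⟩ := sep_root hF ht
  have h1 := rt_dedekind_sep hF hu hsep
  exact rt_ded_equiv (rtE u hm) h1

open scoped IntermediateField.algebraAdjoinAdjoin in
/-- Proof. `f` is algebraic over the fraction field of `A := Algebra.adjoin C {t}`, so there is `a ∈ A`, `a ≠ 0`, with
`a f` integral over `A` (`exists_integral_multiple` or `IsIntegralClosure.exists_smul_eq_mul`); `a = q(t)`. -/
theorem rt_frac (hF : FF C L) {t : L} (ht : Transcendental C t) (f : L) :
    ∃ q : C[X], q ≠ 0 ∧ f * aeval t q ∈ Rt C t := by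
  have hfin := hF.fin t ht
  have h1 : IsAlgebraic (IntermediateField.adjoin C {t}) f := Algebra.IsAlgebraic.isAlgebraic f
  have h2 : IsAlgebraic (Algebra.adjoin C {t}) f :=
    (IsFractionRing.isAlgebraic_iff (Algebra.adjoin C {t}) (IntermediateField.adjoin C {t}) L).2 h1
  obtain ⟨y, hy, hint⟩ := h2.exists_integral_multiple
  obtain ⟨q, hq⟩ : ∃ q : C[X], aeval t q = (y : L) := p2b_ex t y
  refine ⟨q, ?_, ?_⟩
  · rintro rfl
    apply hy
    apply Subtype.ext
    rw [← hq]
    exact map_zero _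
  · have h4 : f * aeval t q = y • f := by
      rw [Algebra.smul_def, mul_comm]
      congr 1
    rw [h4]
    exact hint

end GTP
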