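import Mathlib
import Pool.Agent.MP_c1dca2_ag.GT.P0
import Pool.Agent.TIFCRV.P2b

set_option autoImplicit false
set_option maxSynthPendingDepth 3

open Polynomial

namespace GTP

open GT

/-! ## [GT-P2c] the integral closure of `C[t]` -/

variable {C L : Type} [Field C] [Field L] [Algebra C L]

open scoped IntermediateField.algebraAdjoinAdjoin

theorem p2c_pid {t : L} (ht : Transcendental C t) : IsPrincipalIdealRing (Algebra.adjoin C {t}) :=
  IsPrincipalIdealRing.of_surjective
    (Polynomial.algEquivOfTranscendental C t ht : C[X] →+* Algebra.adjoin C {t})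
    (Polynomial.algEquivOfTranscendental C t ht).surjective

theorem p2c_low (M : ℕ) (p : C[X]) :
    ∃ q : C[X], p = ∑ j : Fin M, Polynomial.C (p.coeff j) * X ^ (j : ℕ) + X ^ M * q := by
  have h : X ^ M ∣ p - ∑ j : Fin M, Polynomial.C (p.coeff j) * X ^ (j : ℕ) := by
    rw [Polynomial.X_pow_dvd_iff]
    intro d hd
    rw [coeff_sub, finsetSum_coeff, Finset.sum_eq_single (⟨d, hd⟩ : Fin M)]
    · rw [coeff_C_mul_X_pow, if_pos rfl, sub_self]
    · intro b _ hb
      rw [coeff_C_mul_X_pow, if_neg]
      intro h1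
      exact hb (Fin.ext h1.symm)
    · intro h1
      exact absurd (Finset.mem_univ _) h1
  obtain ⟨q, hq⟩ := h
  exact ⟨q, by rw [← hq]; ring⟩

/-- the generic form of the computation -/
theorem rt_quot_aux {K A B : Type} [Field K] [CommRing A] [CommRing B] [Algebra K A] [Algebra A B]
    [Algebra K B] [IsScalarTower K A B] (e : K[X] ≃ₐ[K] A) (x : B) (hx : algebraMap A B (e X) = x)
    {n : ℕ} (b : Module.Basis (Fin n) A B) (M : ℕ) :
    FiniteDimensional K (B ⧸ (Ideal.span {x ^ M} : Ideal B)) ∧
      Module.finrank K (B ⧸ (Ideal.span {x ^ M} : Ideal B)) ≤ n * M := by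
  let Q := B ⧸ (Ideal.span {x ^ M} : Ideal B)
  let v : Fin n × Fin M → Q := fun k => Ideal.Quotient.mk _ (x ^ (k.2 : ℕ) * b k.1)
  let φ : (Fin n × Fin M → K) →ₗ[K] Q := Fintype.linearCombination K v
  have htt : ∀ (j : ℕ) (y : B), (e X) ^ j • y = x ^ j * y := by
    intro j y
    rw [Algebra.smul_def, map_pow, hx]
  have hsurj : Function.Surjective φ := by
    intro z
    obtain ⟨z, rfl⟩ := Ideal.Quotient.mk_surjective z
    obtain ⟨p, hp⟩ : ∃ p : Fin n → K[X], ∀ i, e (p i) = b.repr z i :=
      ⟨fun i => e.symm (b.repr z i), fun i => e.apply_symm_apply _⟩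
    choose q hq using fun i => p2c_low M (p i)
    have hterm : ∀ i, e (p i) • b i =
        ∑ j : Fin M, (p i).coeff j • (x ^ (j : ℕ) * b i) + x ^ M * (e (q i) • b i) := by
      intro i
      have h1 : e (p i) = ∑ j : Fin M, algebraMap K A ((p i).coeff j) * (e X) ^ (j : ℕ) +
          (e X) ^ M * e (q i) := by
        conv_lhs => rw [hq i]
        rw [map_add, map_sum, map_mul, map_pow]
        refine congrArg (· + _) (Finset.sum_congr rfl fun j _ => ?_)
        rw [map_mul, map_pow, ← Polynomial.algebraMap_eq, AlgEquiv.commutes]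
      rw [h1, add_smul, Finset.sum_smul, mul_smul, htt]
      refine congrArg (· + _) (Finset.sum_congr rfl fun j _ => ?_)
      rw [mul_smul, htt, algebraMap_smul]
    have key : z = ∑ k : Fin n × Fin M, (p k.1).coeff k.2 • (x ^ (k.2 : ℕ) * b k.1) +
        x ^ M * ∑ i, e (q i) • b i := by
      conv_lhs => rw [← b.sum_repr z]
      rw [Finset.mul_sum, Fintype.sum_prod_type, ← Finset.sum_add_distrib]
      refine Finset.sum_congr rfl fun i _ => ?_
      rw [← hp i, hterm i]
    refine ⟨fun k => (p k.1).coeff k.2, ?_⟩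
    show Fintype.linearCombination K v _ = _
    rw [Fintype.linearCombination_apply]
    have h2 : ∀ k : Fin n × Fin M, (p k.1).coeff k.2 • v k =
        Ideal.Quotient.mk (Ideal.span {x ^ M} : Ideal B)
          ((p k.1).coeff k.2 • (x ^ (k.2 : ℕ) * b k.1)) := fun k => rfl
    rw [Finset.sum_congr rfl (fun k _ => h2 k), ← map_sum, Ideal.Quotient.eq]
    have h5 : ∑ k : Fin n × Fin M, (p k.1).coeff k.2 • (x ^ (k.2 : ℕ) * b k.1) - z =
        -(x ^ M * ∑ i, e (q i) • b i) := by
      have h6 := eq_sub_of_add_eq' key.symm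
      rw [h6]
      ring
    rw [h5]
    exact (Ideal.neg_mem_iff _).2 (Ideal.mul_mem_right _ _ (Ideal.subset_span (Set.mem_singleton _)))
  have hfd : FiniteDimensional K Q := Module.Finite.of_surjective φ hsurj
  refine ⟨hfd, ?_⟩
  have h3 := LinearMap.finrank_le_finrank_of_surjective (f := φ) hsurj
  rw [Module.finrank_fintype_fun_eq_card, Fintype.card_prod, Fintype.card_fin, Fintype.card_fin] at h3
  exact h3

/-- a basis of the integral closure -/
theorem rt_quot_basis (A F E : Type) [CommRing A] [IsDomain A] [IsPrincipalIdealRing A] [Field F]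
    [Field E] [Algebra A F] [IsFractionRing A F] [Algebra A E] [Algebra F E] [IsScalarTower A F E]
    [FiniteDimensional F E] [Algebra.IsSeparable F E] :
    Nonempty (Module.Basis (Fin (Module.finrank F E)) A (integralClosure A E)) := by
  have htf : Module.IsTorsionFree A E := by
    have : Module.IsTorsionFree A F := inferInstance
    exact Module.IsTorsionFree.trans_faithfulSMul A F E
  have hfree : Module.Free A (integralClosure A E) :=
    IsIntegralClosure.module_free A F E (integralClosure A E)
  have hfinA : Module.Finite A (integralClosure A E) :=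
    IsIntegralClosure.finite A F E (integralClosure A E)
  have hrank : Module.finrank A (integralClosure A E) = Module.finrank F E :=
    IsIntegralClosure.rank A F E (integralClosure A E)
  exact ⟨Module.finBasisOfFinrankEq A (integralClosure A E) hrank⟩

/-- Let `n = [L : C(t)]`. `Rt C t / (t ^ M)` has dimension at most `n M`. -/
theorem rt_quot_sep (hF : FF C L) {t : L} (ht : Transcendental C t)
    (hsep : Algebra.IsSeparable (IntermediateField.adjoin C {t}) L) (M : ℕ) :
    FiniteDimensional C (Rt C t ⧸ (Ideal.span {tt C t ^ M} : Ideal (Rt C t))) ∧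
      Module.finrank C (Rt C t ⧸ (Ideal.span {tt C t ^ M} : Ideal (Rt C t))) ≤
        Module.finrank (IntermediateField.adjoin C {t}) L * M := by
  have hpid := p2c_pid ht
  have hfin : FiniteDimensional (IntermediateField.adjoin C {t}) L := hF.fin t ht
  obtain ⟨b⟩ := rt_quot_basis (Algebra.adjoin C {t}) (IntermediateField.adjoin C {t}) L
  have heX : algebraMap (Algebra.adjoin C {t}) (Rt C t)
      (Polynomial.algEquivOfTranscendental C t ht X) = tt C t := by
    have h1 : Polynomial.algEquivOfTranscendental C t ht X =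
        (⟨t, Algebra.subset_adjoin (Set.mem_singleton t)⟩ : Algebra.adjoin C {t}) := aeval_X _
    rw [h1]
    rfl
  exact rt_quot_aux (Polynomial.algEquivOfTranscendental C t ht) (tt C t) heX b M

theorem rt_quot [IsAlgClosed C] (hF : FF C L) {t : L} (ht : Transcendental C t) (M : ℕ) :
    FiniteDimensional C (Rt C t ⧸ (Ideal.span {tt C t ^ M} : Ideal (Rt C t))) ∧
      Module.finrank C (Rt C t ⧸ (Ideal.span {tt C t ^ M} : Ideal (Rt C t))) ≤
        Module.finrank (IntermediateField.adjoin C {t}) L * M := by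
  obtain ⟨u, m, hm, rfl, hu, hsep, hle⟩ := sep_root hF ht
  obtain ⟨h1, h2⟩ := rt_quot_sep hF hu hsep (m * M)
  let e : Rt C u ≃ₐ[C] Rt C (u ^ m) := AlgEquiv.ofRingEquiv (f := (rtE u hm).symm) (fun _ => rfl)
  have h3 : (Ideal.span {tt C (u ^ m) ^ M} : Ideal (Rt C (u ^ m))) =
      (Ideal.span {tt C u ^ (m * M)} : Ideal (Rt C u)).map (e : Rt C u →+* Rt C (u ^ m)) := by
    rw [Ideal.map_span, Set.image_singleton, map_pow, pow_mul]
    congr 3
  let E := Ideal.quotientEquivAlg _ _ e h3
  have h4 := LinearEquiv.finrank_eq E.toLinearEquiv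
  refine ⟨Module.Finite.equiv E.toLinearEquiv, ?_⟩
  rw [← h4]
  refine h2.trans ?_
  calc _ = m * Module.finrank (IntermediateField.adjoin C {u}) L * M := by ring
    _ ≤ _ := Nat.mul_le_mul_right M hle

end GTP
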