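import Mathlib
import Pool.Agent.MP_c1dca2_ag.GT.P0
import Pool.Agent.MP_c1dca2_ag.GT.P1a
import Pool.Agent.MP_c1dca2_ag.GT.P1c
import Pool.Agent.MP_c1dca2_ag.GT.P2a
import Pool.Agent.TIFCRV.P2b
import Pool.Agent.TIFCRV.P2c
import Pool.Agent.MP_c1dca2_ag.GT.P3a
import Pool.Agent.TIFCRV.P3b
import Pool.Agent.TIFCRV.P4a

set_option autoImplicit false

open Polynomial

namespace GTP

open GT

/-! ## [GT-P4b] a function with exactly one pole; the order at a place -/

variable {C L : Type} [Field C] [Field L] [Algebra C L]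

/-- There is a function with exactly one pole, at a given place.

Proof. Choose `x ∉ O₁`, `y = x⁻¹`; `y` is transcendental, `y ∈ O₁.nonunits`. `D := Rt C y` is Dedekind. `p` := the centre of `O₁` (`centre`), `y ∈ p`.
`(y) = p ^ e * I` with `e ≥ 1`, `I` not contained in `p` (e.g. `exists_eq_pow_mul_and_not_dvd` in the monoid of ideals; `p` is prime, finite
multiplicity because `(y) ≠ ⊥`). For all `M`: `(y ^ M) = p ^ (e M) * I ^ M`, so by `rt_quot` and `finrank_add_le` (for `m = e M ≥ M`)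
`finrank (D ⧸ I ^ M) + M ≤ n M`. `exists_elt` gives `M`, `g`; `t := g y⁻ᴹ = g x ^ M`.
`t ∈ O` for every place `O ≠ O₁`: if `x ∈ O` then `t ∈ Rt C x ⊆ O` (`rt_mem`). Otherwise `y ∈ O.nonunits`, `D ⊆ O`, `q` := the centre of `O`.
`q ≠ p`: otherwise `O = O₁` by the last statement of `centre`. `q`, `p` are maximal, so there is `s ∈ p ^ (e M)`, `s ∉ q` (`p ^ (e M) ≤ q` implies `p ≤ q`).
`s g ∈ p ^ (e M) * I ^ M = (y ^ M)`, so `s g = y ^ M b`, `t = g / y ^ M = b / s ∈ O`.
`t ∉ O₁`: otherwise `t` has no pole, `t = c ∈ C` (`mem_const`), `g = c y ^ M`, contradiction. -/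
theorem exists_single [IsAlgClosed C] (hF : FF C L) {O₁ : ValuationSubring L} (hO : IsPl C O₁) :
    ∃ t : L, t ∉ O₁ ∧ ∀ O : ValuationSubring L, IsPl C O → O ≠ O₁ → t ∈ O := by
  obtain ⟨x, hx⟩ : ∃ x : L, x ∉ O₁ := by
    by_contra h
    push Not at h
    exact hO.2 (top_le_iff.mp fun x _ => h x)
  have hx0 : x ≠ 0 := by
    rintro rfl
    exact hx O₁.zero_mem
  have hxtr : Transcendental C x := transc_pole hO hx
  obtain ⟨y, hyx⟩ : ∃ y, y = x⁻¹ := ⟨_, rfl⟩
  have hy : Transcendental C y := by rw [hyx]; exact transc_inv hxtr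
  have hyinv : y⁻¹ = x := by rw [hyx, inv_inv]
  have hy0 : y ≠ 0 := by rw [hyx]; exact inv_ne_zero hx0
  have hplace : ∀ O : ValuationSubring L, x ∉ O → y ∈ O ∧ y ∈ O.nonunits := by
    intro O h
    refine ⟨?_, ?_⟩
    · rw [hyx]; exact (O.mem_or_inv_mem x).resolve_left h
    · rw [ValuationSubring.mem_nonunits_iff_or, hyinv]; exact Or.inr h
  have hD : IsDedekindDomain (Rt C y) := rt_dedekind hF hy
  obtain ⟨hyO, hyn⟩ := hplace O₁ hx
  obtain ⟨p, hp1, hp2, hp3, hp4⟩ := centre hF hy hO hyO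
  have hty : tt C y ∈ p := by rw [hp3, tt_coe]; exact hyn
  have htt0 : tt C y ≠ 0 := by
    intro h
    apply hy0
    have := congrArg (Subtype.val) h
    exact this
  have hJ0 : (Ideal.span {tt C y} : Ideal (Rt C y)) ≠ 0 := by
    rw [Ideal.zero_eq_bot, Ne, Ideal.span_singleton_eq_bot]; exact htt0
  have hpu : ¬ IsUnit p := by rw [Ideal.isUnit_iff]; exact hp1.ne_top
  obtain ⟨I, hI1, hI2⟩ := (FiniteMultiplicity.of_not_isUnit hpu hJ0).exists_eq_pow_mul_and_not_dvd
  obtain ⟨e, he⟩ : ∃ e, e = multiplicity p (Ideal.span {tt C y}) := ⟨_, rfl⟩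
  rw [← he] at hI1
  have he1 : 1 ≤ e := by
    rcases Nat.eq_zero_or_pos e with h | h
    · exfalso
      rw [h, pow_zero, one_mul] at hI1
      apply hI2
      rw [← hI1, Ideal.dvd_iff_le, Ideal.span_singleton_le_iff_mem]
      exact hty
    · exact h
  have hI0 : I ≠ ⊥ := by
    rintro rfl
    apply hJ0
    rw [hI1, Ideal.mul_bot, Ideal.zero_eq_bot]
  have hspan : ∀ M : ℕ, (Ideal.span {tt C y ^ M} : Ideal (Rt C y)) = p ^ (e * M) * I ^ M := by
    intro M
    rw [← Ideal.span_singleton_pow, hI1, mul_pow, pow_mul]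
  obtain ⟨M, g, hg1, hg2, hg3⟩ := exists_elt hF hy I (by
    intro M
    have h := rt_quot hF hy M
    rw [hspan] at h
    have h2 := finrank_add_le (C := C) p (I ^ M) hp1.isPrime hp2
      (by rw [← Ideal.zero_eq_bot]; exact pow_ne_zero M (by rw [Ideal.zero_eq_bot]; exact hI0)) (e * M) h.1
    have h3 : M ≤ e * M := Nat.le_mul_of_pos_left M he1
    refine ⟨h2.1, ?_⟩
    have h4 := h2.2
    have h5 := h.2
    omega)
  have hxy : x ^ M * y ^ M = 1 := by
    rw [← mul_pow, ← hyinv, inv_mul_cancel₀ hy0, one_pow]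
  have key : ∀ O : ValuationSubring L, IsPl C O → O ≠ O₁ → (g : L) * x ^ M ∈ O := by
    intro O hO' hne
    by_cases hxO : x ∈ O
    · rw [hyinv, rt_mem] at hg3
      exact hg3 O hO'.1 hxO
    · obtain ⟨hyO', hyn'⟩ := hplace O hxO
      obtain ⟨q, hq1, hq2, hq3, hq4⟩ := centre hF hy hO' hyO'
      have hqp : ¬ p ^ (e * M) ≤ q := by
        intro h
        have hqpr : q.IsPrime := hq1.isPrime
        have h2 : p ≤ q := Ideal.IsPrime.le_of_pow_le h
        have h3 : p = q := hp1.eq_of_le hq1.ne_top h2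
        apply hne
        ext f
        rw [hq4, hp4, h3]
      obtain ⟨s, hs1, hs2⟩ := Set.not_subset.mp hqp
      have h5 : s * g ∈ (Ideal.span {tt C y ^ M} : Ideal (Rt C y)) := by
        rw [hspan]; exact Ideal.mul_mem_mul hs1 hg1
      obtain ⟨b, hb⟩ := Ideal.mem_span_singleton'.mp h5
      rw [hq4]
      refine ⟨b, s, hs2, ?_⟩
      have h6 : (b : L) * y ^ M = s * g := by
        have := congrArg (Subtype.val) hb
        exact this
      calc (g : L) * x ^ M * s = (s * g) * x ^ M := by ring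
        _ = b * (x ^ M * y ^ M) := by rw [← h6]; ring
        _ = b := by rw [hxy, mul_one]
  refine ⟨(g : L) * x ^ M, fun h => ?_, key⟩
  obtain ⟨c, hc⟩ := mem_const (C := C) ((g : L) * x ^ M) (fun O hO' => by
    by_cases h' : O = O₁
    · rw [h']; exact h
    · exact key O hO' h')
  apply hg2 c
  rw [Algebra.smul_def, ← hc, mul_assoc, hxy, mul_one]

end GTP
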