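import Mathlib
import Pool.Agent.MP_c1dca2_ag.GT.Base
import Pool.Agent.MP_c1dca2_ag.GT.Defs
import Pool.Agent.MP_c1dca2_ag.GT.P0
import Pool.Agent.MP_c1dca2_ag.GT.P1c
import Pool.Agent.TIFCRV.P2b
import Pool.Agent.TIFCRV.P4b
import Pool.Agent.TIFCRV.P4c
import Pool.Agent.MP_c1dca2_ag.GT.P5a
import Pool.Agent.MP_c1dca2_ag.GT.P5d
import Pool.Agent.MP_c1dca2_ag.GT.P6a
import Pool.Agent.TIFCRV.P6b
import Pool.Agent.MP_c1dca2_ag.GT.P6c
import Pool.Agent.MP_c1dca2_ag.GT.P6d
import Pool.Agent.MP_c1dca2_ag.GT.P7a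
import Pool.Agent.MP_c1dca2_ag.GT.P7b
import Pool.Agent.MP_c1dca2_ag.GT.P8d
import Pool.Agent.MP_c1dca2_ag.SUP.Defs

set_option autoImplicit false

open Polynomial

namespace GTP

open GT

/-! ## [GT-P8a] models of function fields with one place at infinity -/

variable {C L : Type} [Field C] [Field L] [Algebra C L]

theorem p8a_zpow {O : ValuationSubring L} {o : L → ℤ} (h : IsOrd C O o) {z : L} (hz : z ≠ 0) (n : ℤ) :
    o (z ^ n) = n * o z := by
  cases n with
  | ofNat n => rw [Int.ofNat_eq_natCast, zpow_natCast, ord_pow h hz]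
  | negSucc n =>
    rw [zpow_negSucc, ord_inv h (pow_ne_zero _ hz), ord_pow h hz, Int.negSucc_eq]
    push_cast; ring

/-- Transport of Dedekind domains. -/
theorem p8a_ded {A B : Type} [CommRing A] [CommRing B] (e : A ≃+* B) (h : IsDedekindDomain B) :
    IsDedekindDomain A := by
  have h1 : IsDomain A := e.toMulEquiv.isDomain B
  have h2 : IsNoetherianRing A := isNoetherianRing_of_ringEquiv B e.symm
  have h3 : Ring.DimensionLEOne A := by
    refine ⟨fun {p} hp hpp => ?_⟩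
    have h4 : (p.comap (e.symm : B →+* A)).IsPrime := Ideal.comap_isPrime _ _
    have h5 : p.comap (e.symm : B →+* A) ≠ ⊥ := by
      intro h6
      apply hp
      rw [eq_bot_iff]
      intro x hx
      have h7 : e x ∈ p.comap (e.symm : B →+* A) := by
        rw [Ideal.mem_comap]; simpa using hx
      rw [h6, Ideal.mem_bot] at h7
      rw [Ideal.mem_bot]
      exact (map_eq_zero_iff e e.injective).mp h7
    have h6 : (p.comap (e.symm : B →+* A)).IsMaximal := h4.isMaximal h5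
    have h7 : p = (p.comap (e.symm : B →+* A)).comap (e : A →+* B) := by
      ext x
      rw [Ideal.mem_comap, Ideal.mem_comap]
      simp
    rw [h7]
    exact Ideal.comap_isMaximal_of_surjective _ e.surjective
  have h4 : IsIntegrallyClosed A := IsIntegrallyClosed.of_equiv e.symm
  exact { h1, h2, h3, h4 with }

/-- The order is unique.

Proof. For both orders the units of `O₁` are the elements of order `0`, and the elements of order `1` are the generators of the maximal ideal of `O₁`. Choose `z` with `o z = 1`: `z` is a nonunit, so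
`o' z ≥ 1`, and every nonunit `a` (`0 < o a`) is `z` times an element of `O₁`; choose `z'` with `o' z' = 1`: `z' = z u`, `u ∈ O₁`, so `1 = o' z + o' u` and `o' z = 1`. For `a ≠ 0`, `n = o a`: `a / z ^ n` (integer power) and its
inverse are in `O₁`, so `o' a = n`. -/
theorem ord_unique {O : ValuationSubring L} {o o' : L → ℤ} (h : IsOrd C O o) (h' : IsOrd C O o') {a : L} (ha : a ≠ 0) :
    o a = o' a := by
  have key : ∀ {o₁ o₂ : L → ℤ}, IsOrd C O o₁ → IsOrd C O o₂ → ∀ z : L, z ≠ 0 → o₁ z = 1 → 1 ≤ o₂ z := by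
    intro o₁ o₂ h₁ h₂ z hz h1
    have h3 : z⁻¹ ∉ O := by
      rw [h₁.mem _ (inv_ne_zero hz), ord_inv h₁ hz, h1]; decide
    rw [h₂.mem _ (inv_ne_zero hz), ord_inv h₂ hz] at h3
    omega
  obtain ⟨z, hz, h1⟩ := h.surj
  obtain ⟨z', hz', h1'⟩ := h'.surj
  have h2 : 1 ≤ o' z := key h h' z hz h1
  have h3 : 1 ≤ o z' := key h' h z' hz' h1'
  have h4 : o' z = 1 := by
    have h5 : z' * z⁻¹ ∈ O := by
      rw [h.mem _ (mul_ne_zero hz' (inv_ne_zero hz)), h.mul _ _ hz' (inv_ne_zero hz), ord_inv h hz, h1]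
      omega
    rw [h'.mem _ (mul_ne_zero hz' (inv_ne_zero hz)), h'.mul _ _ hz' (inv_ne_zero hz), ord_inv h' hz, h1'] at h5
    omega
  have h5 : a * z ^ (-o a) ≠ 0 := mul_ne_zero ha (zpow_ne_zero _ hz)
  have h6 : o (a * z ^ (-o a)) = 0 := by
    rw [h.mul _ _ ha (zpow_ne_zero _ hz), p8a_zpow h hz, h1]; ring
  have h7 : o' (a * z ^ (-o a)) = o' a - o a := by
    rw [h'.mul _ _ ha (zpow_ne_zero _ hz), p8a_zpow h' hz, h4]; ring
  have h8 : 0 ≤ o' (a * z ^ (-o a)) := (h'.mem _ h5).mp ((h.mem _ h5).mpr h6.ge)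
  have h9 : 0 ≤ o' (a * z ^ (-o a))⁻¹ :=
    (h'.mem _ (inv_ne_zero h5)).mp ((h.mem _ (inv_ne_zero h5)).mpr (by rw [ord_inv h h5, h6]; rfl))
  rw [ord_inv h' h5] at h9
  omega

theorem p8a_aeval_mem {S : Subring L} {x : L} (hS : ∀ c : C, algebraMap C L c ∈ S) (hx : x ∈ S) (p : C[X]) :
    aeval x p ∈ S := by
  rw [aeval_eq_sum_range]
  refine S.sum_mem fun i _ => ?_
  rw [Algebra.smul_def]
  exact S.mul_mem (hS _) (S.pow_mem hx _)

/-- Proof. `exists_ord`, `exists_apery`, `Apery.exists_tab` give `o`, `x`, `f`, `w`, `T`. `Sol T (algebraMap C L) x f` (`f_zero` and the equations), `E := lift` of it, `E b = ∑ aeval x (b.co j) * f j`.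
`inj`: `Apery.unique`. `range`: `E b ∈ RO C O₁` (`x`, `f j` and the constants are), and `Apery.exists_repr`. `frac`: `exists_single` and `ro_eq`, `rt_frac`: `f * q(t) ∈ Rt C t = RO C O₁` and `q(t) ∈ RO C O₁`, `q(t) ≠ 0`.
`ord`: `o (E b) = - pord b` for `b ≠ 0` by `Apery.ord_sum` (`p = b.co`) and `pord_spec`; `E a / E b ∈ O₁` iff `0 ≤ o (E a / E b) = pord b - pord a`. `ordo`: `ord_unique`. `ded`: `E` is an isomorphism of `WB T` onto `RO C O₁ = Rt C t` (a ring
isomorphism, `RingEquiv` transports `IsDedekindDomain`: `RingEquiv.isDedekindDomain` or `IsDedekindDomain.of_ringEquiv`-like lemma), `rt_dedekind`. -/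
theorem exists_model [IsAlgClosed C] (hF : FF C L) {O₁ : ValuationSubring L} (hO : IsPl C O₁) :
    ∃ (d : ℕ) (_ : NeZero d) (T : Tab C d) (E : WB T →+* L), Model O₁ T E := by
  obtain ⟨o, ho⟩ := exists_ord hF hO
  obtain ⟨d, hd, x, f, w, hA⟩ := exists_apery hF hO ho
  obtain ⟨T, hTw, hT⟩ := hA.exists_tab hO ho
  have hSol : Sol T (algebraMap C L) x f := ⟨hA.f_zero, hT⟩
  have hE : ∀ b : WB T, lift hSol b = ∑ j, aeval x (b.co j) * f j := fun b => rfl
  have hinj : Function.Injective (lift hSol) := by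
    intro a b hab
    rw [hE, hE] at hab
    exact WB.ext (hA.unique hO ho hab)
  have hne : ∀ b : WB T, b ≠ 0 → lift hSol b ≠ 0 := fun b hb h0 =>
    hb (hinj (by rw [h0, map_zero]))
  have hrange : ∀ g : L, g ∈ RO C O₁ ↔ ∃ b, lift hSol b = g := by
    intro g
    constructor
    · intro hg
      obtain ⟨p, hp⟩ := hA.exists_repr hO ho hg
      exact ⟨⟨p⟩, by rw [hE, hp]⟩
    · rintro ⟨b, rfl⟩
      rw [hE]
      refine (RO C O₁).sum_mem fun j _ => (RO C O₁).mul_mem ?_ (hA.f_mem j)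
      exact p8a_aeval_mem (const_mem_RO O₁) hA.x_mem _
  have hord : ∀ b : WB T, b ≠ 0 → o (lift hSol b) = -(pord b : ℤ) := by
    intro b hb
    have hco : b.co ≠ 0 := fun h => hb (WB.ext h)
    obtain ⟨i, n, h1, h2, h3, h4⟩ := hA.ord_sum hO ho b.co hco
    obtain ⟨i', n', h1', h2', h3'⟩ := pord_spec b hb
    rw [hE, h3, h2', hTw]
    rw [hTw] at h3'
    have h5 := h3' i n h1
    have h6 := h4 i' n' h1'
    have h7 : d * n + w i = d * n' + w i' := le_antisymm h5 h6
    rw [h7]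
  obtain ⟨t, ht, ht'⟩ := exists_single hF hO
  have htr : Transcendental C t := transc_pole hO ht
  refine ⟨d, hd, T, lift hSol, ⟨fun c => lift_algebraMap' hSol c, hinj, hrange, ?_, ?_, ?_, ?_⟩⟩
  · intro g
    obtain ⟨q, hq, hgq⟩ := rt_frac hF htr g
    rw [← ro_eq ht ht'] at hgq
    obtain ⟨a, ha⟩ := (hrange _).mp hgq
    have hqt : aeval t q ∈ RO C O₁ := p8a_aeval_mem (const_mem_RO O₁) ht' q
    obtain ⟨b, hb⟩ := (hrange _).mp hqt
    refine ⟨a, b, ?_, by rw [ha, hb]⟩
    rintro rfl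
    rw [map_zero] at hb
    exact hq (transcendental_iff.mp htr q hb.symm)
  · intro a b ha hb
    have h1 := hne a ha
    have h2 := hne b hb
    rw [ho.mem _ (div_ne_zero h1 h2), div_eq_mul_inv, ho.mul _ _ h1 (inv_ne_zero h2), ord_inv ho h2,
      hord a ha, hord b hb]
    omega
  · intro o' ho' b hb
    rw [← hord b hb]
    exact ord_unique ho' ho (hne b hb)
  · have hmem : ∀ b : WB T, lift hSol b ∈ Rt C t := fun b => (ro_eq ht ht' _).mp ((hrange _).mpr ⟨b, rfl⟩)
    have e : WB T ≃+* Rt C t := by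
      refine RingEquiv.ofBijective ((lift hSol).codRestrict (Rt C t) hmem) ⟨?_, ?_⟩
      · intro a b hab
        exact hinj (congrArg Subtype.val hab)
      · rintro ⟨g, hg⟩
        obtain ⟨b, hb⟩ := (hrange _).mp ((ro_eq ht ht' g).mpr hg)
        exact ⟨b, Subtype.ext hb⟩
    exact p8a_ded e (rt_dedekind hF htr)

variable {O₁ : ValuationSubring L} {d : ℕ} [NeZero d] {T : Tab C d} {E : WB T →+* L}

end GTP
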