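import Mathlib
import Pool.Agent.TIF.Top

/-!
# [TIF] CRV: tables and points under change of the coefficients
-/

set_option autoImplicit false
set_option linter.unusedSectionVars false

open Polynomial GT

namespace TIFCRV

/-- a table whose coefficients lie in the image of `g` comes from a table over the source -/
theorem exists_tab {R S : Type} [CommRing R] [CommRing S] (g : R →+* S)
    (hg : Function.Injective g) {d : ℕ} [NeZero d] (T : Tab S d)
    (h : ∀ i j l n, (T.c i j l).coeff n ∈ Set.range g) : ∃ T₀ : Tab R d, T₀.map g = T := by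
  have h1 : ∀ i j l, ∃ q : R[X], q.map g = T.c i j l := by
    intro i j l
    have : T.c i j l ∈ lifts g := by
      rw [lifts_iff_coeff_lifts]
      exact h i j l
    obtain ⟨q, hq⟩ := (mem_lifts _).1 this
    exact ⟨q, hq⟩
  choose c hc using h1
  have hinj : Function.Injective (Polynomial.map g) := Polynomial.map_injective g hg
  let T₀ : Tab R d :=
    { w := T.w
      c := c
      w_cast := T.w_cast
      w_zero := T.w_zero
      comm := fun i j k => by
        apply hinj
        rw [hc, hc, T.comm]
      one := fun j k => by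
        apply hinj
        rw [hc, T.one]
        split_ifs
        · rw [Polynomial.map_one]
        · rw [Polynomial.map_zero]
      assoc := fun i j k n => by
        apply hinj
        simp only [Polynomial.map_sum, Polynomial.map_mul, hc]
        exact T.assoc i j k n
      top := fun i j => by
        obtain ⟨n, hn, h⟩ := T.top i j
        refine ⟨n, hn, hg ?_⟩
        rw [← coeff_map, hc, h, map_one]
      small := fun i j k n h => by
        apply hg
        rw [← coeff_map, hc, T.small i j k n h, map_zero] }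
  refine ⟨T₀, Tab.ext rfl ?_⟩
  funext i j k
  rw [Tab.map_c]
  exact hc i j k

section point

variable {κ Ω : Type} [Field κ] [Field Ω] [Algebra κ Ω] {d : ℕ} [NeZero d] {T : Tab κ d}

theorem φ_smul (φ : WB T →ₐ[κ] Ω) (p : Polynomial κ) (b : WB T) :
    φ (p • b) = aeval (φ (WB.x T)) p * φ b := by
  rw [Algebra.smul_def, map_mul]
  congr 1
  have h1 : (φ : WB T →+* Ω).comp (algebraMap (Polynomial κ) (WB T)) =
      (aeval (φ (WB.x T)) : Polynomial κ →ₐ[κ] Ω) := by
    refine Polynomial.ringHom_ext (fun a => ?_) ?_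
    · show φ (algebraMap (Polynomial κ) (WB T) (C a)) = aeval (φ (WB.x T)) (C a)
      rw [aeval_C, ← Polynomial.algebraMap_eq, ← IsScalarTower.algebraMap_apply]
      exact φ.commutes a
    · show φ (algebraMap (Polynomial κ) (WB T) X) = aeval (φ (WB.x T)) X
      rw [aeval_X]
      rfl
  exact congrArg (fun g : Polynomial κ →+* Ω => g p) h1

/-- the extension of a point to the larger field of coefficients -/
theorem exists_point (φ : WB T →ₐ[κ] Ω) :
    ∃ P : WB (T.map (algebraMap κ Ω)) →ₐ[Ω] Ω, P (WB.x _) = φ (WB.x T) ∧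
      (∀ j, P (WB.f _ j) = φ (WB.f T j)) ∧
      ∀ b : WB T, P (bmap (algebraMap κ Ω) rfl b) = φ b := by
  have hf : ∀ i j, φ (WB.f T i) * φ (WB.f T j) =
      ∑ k, aeval (φ (WB.x T)) (T.c i j k) * φ (WB.f T k) := by
    intro i j
    rw [← map_mul, WB.f_mul, map_sum]
    exact Finset.sum_congr rfl fun k _ => φ_smul φ _ _
  let F : WB (T.map (algebraMap κ Ω)) → Ω := fun b =>
    ∑ j, (b.co j).eval (φ (WB.x T)) * φ (WB.f T j)
  have hF1 : F 1 = 1 := by
    show ∑ j, ((1 : WB (T.map (algebraMap κ Ω))).co j).eval (φ (WB.x T)) * φ (WB.f T j) = 1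
    rw [WB.co_one, Finset.sum_eq_single 0]
    · rw [Pi.single_eq_same, eval_one, one_mul, WB.f_zero, map_one]
    · intro j _ hj
      rw [Pi.single_eq_of_ne hj, eval_zero, zero_mul]
    · intro h
      exact absurd (Finset.mem_univ _) h
  have hFadd : ∀ a b, F (a + b) = F a + F b := by
    intro a b
    show ∑ j, ((a + b).co j).eval (φ (WB.x T)) * φ (WB.f T j) = _
    simp only [WB.co_add, Pi.add_apply, eval_add, add_mul, Finset.sum_add_distrib]
    rfl
  have hFmul : ∀ a b, F (a * b) = F a * F b := by
    intro a b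
    show ∑ k, ((a * b).co k).eval (φ (WB.x T)) * φ (WB.f T k) =
      (∑ i, (a.co i).eval (φ (WB.x T)) * φ (WB.f T i)) *
        ∑ j, (b.co j).eval (φ (WB.x T)) * φ (WB.f T j)
    have h1 : ∀ k, ((a * b).co k).eval (φ (WB.x T)) * φ (WB.f T k) =
        ∑ i, ∑ j, (a.co i).eval (φ (WB.x T)) * (b.co j).eval (φ (WB.x T)) *
          (aeval (φ (WB.x T)) (T.c i j k) * φ (WB.f T k)) := by
      intro k
      rw [WB.co_mul, eval_finsetSum, Finset.sum_mul]
      refine Finset.sum_congr rfl fun i _ => ?_
      rw [eval_finsetSum, Finset.sum_mul]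
      refine Finset.sum_congr rfl fun j _ => ?_
      rw [eval_mul, eval_mul, Tab.map_c, eval_map]
      rw [aeval_def]
      ring
    rw [Finset.sum_congr rfl fun k _ => h1 k, Finset.sum_comm, Finset.sum_mul]
    refine Finset.sum_congr rfl fun i _ => ?_
    rw [Finset.sum_comm, Finset.mul_sum]
    refine Finset.sum_congr rfl fun j _ => ?_
    rw [← Finset.mul_sum, ← hf]
    ring
  have hFalg : ∀ r : Ω, F (algebraMap Ω (WB (T.map (algebraMap κ Ω))) r) = r := by
    intro r
    show ∑ j, ((algebraMap Ω (WB (T.map (algebraMap κ Ω))) r).co j).eval (φ (WB.x T)) *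
      φ (WB.f T j) = r
    rw [Finset.sum_eq_single 0]
    · rw [WB.algebraMap_co', if_pos rfl, eval_C, WB.f_zero, map_one, mul_one]
    · intro j _ hj
      rw [WB.algebraMap_co', if_neg hj, eval_zero, zero_mul]
    · intro h
      exact absurd (Finset.mem_univ _) h
  let P : WB (T.map (algebraMap κ Ω)) →ₐ[Ω] Ω :=
    { toFun := F
      map_one' := hF1
      map_mul' := hFmul
      map_zero' := by
        have := hFadd 0 0
        rw [add_zero] at this
        exact left_eq_add.1 this
      map_add' := hFadd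
      commutes' := hFalg }
  have hb : ∀ b : WB T, P (bmap (algebraMap κ Ω) rfl b) = φ b := by
    intro b
    show ∑ j, ((b.co j).map (algebraMap κ Ω)).eval (φ (WB.x T)) * φ (WB.f T j) = φ b
    conv_rhs => rw [← WB.sum_f b, map_sum]
    refine Finset.sum_congr rfl fun j _ => ?_
    rw [φ_smul, aeval_def, eval_map]
  refine ⟨P, ?_, ?_, hb⟩
  · rw [← hb]
    congr 1
    refine WB.ext (funext fun j => ?_)
    show (WB.x (T.map (algebraMap κ Ω))).co j = ((WB.x T).co j).map (algebraMap κ Ω)
    rw [WB.x, WB.x, WB.algebraMap_co, WB.algebraMap_co]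
    split_ifs
    · rw [Polynomial.map_X]
    · rw [Polynomial.map_zero]
  · intro j
    rw [← hb]
    congr 1
    refine WB.ext (funext fun i => ?_)
    show (WB.f (T.map (algebraMap κ Ω)) j).co i = ((WB.f T j).co i).map (algebraMap κ Ω)
    rw [WB.f_co, WB.f_co]
    by_cases hij : i = j
    · rw [hij, Pi.single_eq_same, Pi.single_eq_same, Polynomial.map_one]
    · rw [Pi.single_eq_of_ne hij, Pi.single_eq_of_ne hij, Polynomial.map_zero]

end point

/-! ### universal domains -/

open Cardinal in
theorem univ_of_trdeg {k Ω : Type} [Field k] [Field Ω] [Algebra k Ω]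
    (h : ℵ₀ ≤ Algebra.trdeg k Ω) : TIF.Univ k Ω := by
  intro S
  by_contra hc
  push Not at hc
  have h1 : Algebra.trdeg k (⊤ : IntermediateField k Ω) ≤ #(S : Set Ω) :=
    Pool.Agent.T1B.trdeg_le_mk (S : Set Ω) ⊤ (fun a _ => by
      have := hc a
      rwa [Transcendental, not_not] at this)
  have h2 : Algebra.trdeg k Ω ≤ Algebra.trdeg k (⊤ : IntermediateField k Ω) :=
    trdeg_le_of_injective (IntermediateField.topEquiv (F := k) (E := Ω)).symm.toAlgHom
      (IntermediateField.topEquiv (F := k) (E := Ω)).symm.injective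
  have h3 : #(S : Set Ω) < ℵ₀ := by
    have : #(S : Set Ω) = (S.card : Cardinal) := by simp
    rw [this]
    exact natCast_lt_aleph0
  exact absurd (h.trans (h2.trans h1)) (not_le.2 h3)

open Cardinal in
theorem exists_univ (k M : Type) [Field k] [Field M] [Algebra k M] :
    ∃ (Ω : Type) (_ : Field Ω) (_ : Algebra k Ω) (_ : IsAlgClosed Ω) (_ : M →ₐ[k] Ω),
      ℵ₀ ≤ Algebra.trdeg k Ω := by
  let R := FractionRing (MvPolynomial ℕ M)
  let Ω := AlgebraicClosure R
  have h1 : Function.Injective (algebraMap (MvPolynomial ℕ M) Ω) := by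
    rw [IsScalarTower.algebraMap_eq (MvPolynomial ℕ M) R Ω]
    exact (algebraMap R Ω).injective.comp (IsFractionRing.injective (MvPolynomial ℕ M) R)
  have h2 : AlgebraicIndependent k (fun n : ℕ => algebraMap (MvPolynomial ℕ M) Ω (MvPolynomial.X n)) := by
    rw [algebraicIndependent_iff_injective_aeval]
    have h3 : (MvPolynomial.aeval (R := k) fun n : ℕ => algebraMap (MvPolynomial ℕ M) Ω (MvPolynomial.X n)) =
        (IsScalarTower.toAlgHom k (MvPolynomial ℕ M) Ω).comp
          (MvPolynomial.mapAlgHom (Algebra.ofId k M)) := by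
      refine MvPolynomial.algHom_ext fun n => ?_
      rw [MvPolynomial.aeval_X]
      show _ = algebraMap (MvPolynomial ℕ M) Ω (MvPolynomial.map _ (MvPolynomial.X n))
      rw [MvPolynomial.map_X]
    rw [h3]
    exact h1.comp (MvPolynomial.map_injective _ (algebraMap k M).injective)
  refine ⟨Ω, inferInstance, inferInstance, inferInstance,
    (IsScalarTower.toAlgHom k (MvPolynomial ℕ M) Ω).comp
      (IsScalarTower.toAlgHom k M (MvPolynomial ℕ M)), ?_⟩
  have := h2.lift_cardinalMk_le_trdeg
  simpa using this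

end TIFCRV
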