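import Mathlib
import Pool.Agent.TIFCRV.Pt
import Pool.Agent.TIFCRV.P8a
import Pool.Agent.MP_c1dca2_ag.GT.P1b
import Pool.Agent.TIFP.Conj

set_option maxSynthPendingDepth 3

private theorem crv_tf_field (K L : Type*) [Field K] [Field L] [Algebra K L] :
    Module.IsTorsionFree K L := inferInstance

private theorem crv_fs_field (K L : Type*) [Field K] [Field L] [Algebra K L] :
    FaithfulSMul K L := inferInstance

attribute [local instance 5000] crv_tf_field crv_fs_field


/-!
# [TIF] CRV: two function fields in the field of two points of one curve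
-/

set_option autoImplicit false
set_option linter.unusedSectionVars false

open Polynomial GT

namespace TIFCRV

open TIF

/-- the smoothness of a table does not depend on the algebraically closed field -/
def DedStmt : Prop :=
  ∀ (κ Ω : Type) [Field κ] [IsAlgClosed κ] [Field Ω] [IsAlgClosed Ω] (d : ℕ) [NeZero d]
    (T : Tab κ d) (g : κ →+* Ω), IsDedekindDomain (WB T) → IsDedekindDomain (WB (T.map g))

section alg

variable {k A B : Type} [Field k] [Field A] [Field B] [Algebra k A] [Algebra k B]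

theorem alg_push (j : A →ₐ[k] B) (S : Set A) {a : A}
    (h : IsAlgebraic (IntermediateField.adjoin k S) a) :
    IsAlgebraic (IntermediateField.adjoin k (j '' S)) (j a) := by
  obtain ⟨p, hp0, hp⟩ := h
  have hmem : ∀ x : IntermediateField.adjoin k S, j x ∈ IntermediateField.adjoin k (j '' S) := by
    intro x
    rw [← IntermediateField.adjoin_map]
    exact ⟨x, x.2, rfl⟩
  let g : IntermediateField.adjoin k S →+* IntermediateField.adjoin k (j '' S) :=
    { toFun := fun x => ⟨j x, hmem x⟩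
      map_one' := Subtype.ext (map_one j)
      map_zero' := Subtype.ext (map_zero j)
      map_add' := fun x y => Subtype.ext (map_add j (x : A) y)
      map_mul' := fun x y => Subtype.ext (map_mul j (x : A) y) }
  refine ⟨p.map g, (Polynomial.map_ne_zero_iff g.injective).2 hp0, ?_⟩
  rw [Polynomial.aeval_def, Polynomial.eval₂_map]
  have h1 := congrArg j hp
  rw [map_zero, Polynomial.aeval_def] at h1
  have h2 := Polynomial.hom_eval₂ p (algebraMap (IntermediateField.adjoin k S) A) (j : A →+* B) a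
  rw [← h1]
  exact h2.symm

theorem alg_pull (j : A →ₐ[k] B) (S : Set A) {a : A}
    (h : IsAlgebraic (IntermediateField.adjoin k (j '' S)) (j a)) :
    IsAlgebraic (IntermediateField.adjoin k S) a := by
  obtain ⟨p, hp0, hp⟩ := h
  have hmem : ∀ x : IntermediateField.adjoin k (j '' S), ∃ y : IntermediateField.adjoin k S,
      j y = x := by
    rintro ⟨x, h1⟩
    rw [← IntermediateField.adjoin_map] at h1
    obtain ⟨y, hy, hyx⟩ := h1
    exact ⟨⟨y, hy⟩, hyx⟩
  have hl : p ∈ lifts (({
      toFun := fun x => ⟨j x, by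
        rw [← IntermediateField.adjoin_map]
        exact ⟨x, x.2, rfl⟩⟩
      map_one' := Subtype.ext (map_one j)
      map_zero' := Subtype.ext (map_zero j)
      map_add' := fun x y => Subtype.ext (map_add j (x : A) y)
      map_mul' := fun x y => Subtype.ext (map_mul j (x : A) y) } :
        IntermediateField.adjoin k S →+* IntermediateField.adjoin k (j '' S))) := by
    rw [lifts_iff_coeff_lifts]
    intro n
    obtain ⟨y, hy⟩ := hmem (p.coeff n)
    exact ⟨y, Subtype.ext hy⟩
  obtain ⟨q, hq⟩ := (mem_lifts _).1 hl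
  refine ⟨q, ?_, ?_⟩
  · rintro rfl
    apply hp0
    rw [← hq, Polynomial.map_zero]
  · apply j.injective
    rw [map_zero, Polynomial.aeval_def]
    rw [← hq, Polynomial.aeval_def, Polynomial.eval₂_map] at hp
    rw [← hp]
    exact Polynomial.hom_eval₂ q (algebraMap (IntermediateField.adjoin k S) A) (j : A →+* B) a

theorem alg_mono {S S' : IntermediateField k A} (h : S ≤ S') {a : A} (ha : IsAlgebraic S a) :
    IsAlgebraic S' a := by
  obtain ⟨p, hp0, hp⟩ := ha
  refine ⟨p.map (IntermediateField.inclusion h : S →+* S'),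
    (Polynomial.map_ne_zero_iff (IntermediateField.inclusion_injective h)).2 hp0, ?_⟩
  rw [Polynomial.aeval_def, Polynomial.eval₂_map]
  exact hp

theorem alg_up (κ : IntermediateField k A) (S : Set A) {a : A}
    (h : IsAlgebraic (IntermediateField.adjoin k S) a) :
    IsAlgebraic (IntermediateField.adjoin κ S) a := by
  obtain ⟨p, hp0, hp⟩ := h
  have hmem : ∀ x : IntermediateField.adjoin k S, (x : A) ∈ IntermediateField.adjoin κ S := by
    have h1 : IntermediateField.adjoin k S ≤
        (IntermediateField.adjoin κ S).restrictScalars k := by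
      rw [IntermediateField.adjoin_le_iff]
      exact IntermediateField.subset_adjoin κ S
    exact fun x => h1 x.2
  let g : IntermediateField.adjoin k S →+* IntermediateField.adjoin κ S :=
    { toFun := fun x => ⟨x, hmem x⟩
      map_one' := rfl
      map_zero' := rfl
      map_add' := fun _ _ => rfl
      map_mul' := fun _ _ => rfl }
  refine ⟨p.map g, (Polynomial.map_ne_zero_iff g.injective).2 hp0, ?_⟩
  rw [Polynomial.aeval_def, Polynomial.eval₂_map]
  exact hp

/-- elements algebraic over the algebraic closure of `F` -/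
theorem alg_cl (F : IntermediateField k A) {a : A}
    (h : IsAlgebraic (algebraicClosure F A) a) : IsAlgebraic F a := h.restrictScalars F

theorem exists_gen (K : IntermediateField k A) (h : Algebra.trdeg k K ≤ 1) :
    ∃ t ∈ K, ∀ a ∈ K, IsAlgebraic (IntermediateField.adjoin k {t}) a := by
  obtain ⟨t, ht⟩ := TIF.exists_t (Ω := K) h
  refine ⟨t, t.2, fun a ha => ?_⟩
  have h1 := alg_push K.val {t} (ht ⟨a, ha⟩)
  rw [Set.image_singleton] at h1
  exact h1

theorem sup_alg (K₁ K₂ : IntermediateField k A) (t : A) (F : IntermediateField k A)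
    (h₁ : ∀ a ∈ K₁, IsAlgebraic F a) (ht : IsAlgebraic F t)
    (h₂ : ∀ a ∈ K₂, IsAlgebraic (IntermediateField.adjoin k {t}) a) :
    ∀ a ∈ K₁ ⊔ K₂, IsAlgebraic F a := by
  have h3 : K₁ ⊔ K₂ ≤ (algebraicClosure F A).restrictScalars k := by
    refine sup_le (fun a ha => mem_algebraicClosure_iff.2 (h₁ a ha)) (fun a ha => ?_)
    have h4 : IntermediateField.adjoin k {t} ≤ (algebraicClosure F A).restrictScalars k := by
      rw [IntermediateField.adjoin_simple_le_iff]
      exact mem_algebraicClosure_iff.2 ht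
    have h5 : IsAlgebraic ((algebraicClosure F A).restrictScalars k) a := alg_mono h4 (h₂ a ha)
    exact mem_algebraicClosure_iff.2 (alg_cl F h5)
  exact fun a ha => mem_algebraicClosure_iff.1 (h3 ha)

end alg

/-- generators of two independent fields of transcendence degree one -/
theorem exists_two {k M : Type} [Field k] [Field M] [Algebra k M] (K₁ K₂ : IntermediateField k M)
    (h₁ : Algebra.trdeg k K₁ ≤ 1) (h₂ : Algebra.trdeg k K₂ ≤ 1)
    (h : Algebra.trdeg k (K₁ ⊔ K₂ : IntermediateField k M) = 2) :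
    ∃ t₁ t₂ : M, (∀ a ∈ K₁, IsAlgebraic (IntermediateField.adjoin k {t₁}) a) ∧
      (∀ a ∈ K₂, IsAlgebraic (IntermediateField.adjoin k {t₂}) a) ∧
      Transcendental k t₁ ∧ ¬ IsAlgebraic (IntermediateField.adjoin k {t₁}) t₂ := by
  obtain ⟨t₁, -, ht₁⟩ := exists_gen K₁ h₁
  obtain ⟨t₂, -, ht₂⟩ := exists_gen K₂ h₂
  have key : ∀ t : M, ¬ ∀ a ∈ K₁ ⊔ K₂, IsAlgebraic (IntermediateField.adjoin k {t}) a := by
    intro t h3
    have h4 := Pool.Agent.T1B.trdeg_le_mk {t} (K₁ ⊔ K₂) h3
    rw [h, Cardinal.mk_singleton] at h4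
    exact absurd h4 (by norm_num)
  refine ⟨t₁, t₂, ht₁, ht₂, ?_, ?_⟩
  · intro h3
    apply key t₂
    rw [sup_comm]
    refine sup_alg K₂ K₁ t₁ _ ht₂ ?_ ht₁
    exact h3.tower_top _
  · intro h3
    exact key t₁ (sup_alg K₁ K₂ t₂ _ ht₁ h3 ht₂)

theorem coeff_fin {R : Type} [Semiring R] (p : R[X]) : (Set.range p.coeff).Finite := by
  refine (((Set.finite_lt_nat (p.natDegree + 1)).image p.coeff).union (Set.finite_singleton 0)).subset ?_
  rintro _ ⟨n, rfl⟩
  by_cases h : n < p.natDegree + 1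
  · exact Or.inl ⟨n, h, rfl⟩
  · exact Or.inr (coeff_eq_zero_of_natDegree_lt (by omega))

section main

variable {k M Ω : Type} [Field k] [Finite k] [Field M] [Algebra k M] [Field Ω] [Algebra k Ω]
  [IsAlgClosed Ω]

/-- transcendental elements are conjugate -/
theorem exists_sigma {κ : Type} [Field κ] [Algebra κ Ω] {s₁ s₂ : Ω} (h₁ : Transcendental κ s₁)
    (h₂ : Transcendental κ s₂) : ∃ σ : Ω ≃ₐ[κ] Ω, σ s₁ = s₂ := by
  have h1 : ∀ {s : Ω}, Transcendental κ s → RingHom.ker (MvPolynomial.aeval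
      (fun _ : Unit => s) : MvPolynomial Unit κ →ₐ[κ] Ω) = ⊥ := by
    intro s hs
    rw [← RingHom.injective_iff_ker_eq_bot]
    exact algebraicIndependent_unique_type_iff.2 hs
  obtain ⟨σ, hσ⟩ := Pool.Agent.TIFP.exists_conj (k := κ) (fun _ : Unit => s₁) (fun _ : Unit => s₂)
    ((h1 h₁).trans (h1 h₂).symm)
  exact ⟨σ, hσ ()⟩

/-- a finitely generated field of transcendence degree one is a function field -/
theorem ff_adjoin {κ : Type} [Field κ] [IsAlgClosed κ] [Algebra κ Ω] {s : Ω}
    (hs : Transcendental κ s) (G : Set Ω) (hG : G.Finite)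
    (halg : ∀ g ∈ G, IsAlgebraic (IntermediateField.adjoin κ {s}) g) :
    FF κ (IntermediateField.adjoin κ (G ∪ {s})) ∧
      ∀ x ∈ IntermediateField.adjoin κ (G ∪ {s}), IsAlgebraic (IntermediateField.adjoin κ {s}) x := by
  set L := IntermediateField.adjoin κ (G ∪ {s}) with hL
  have hle : L ≤ (algebraicClosure (IntermediateField.adjoin κ {s}) Ω).restrictScalars κ := by
    rw [hL, IntermediateField.adjoin_le_iff]
    rintro x (hx | hx)
    · exact mem_algebraicClosure_iff.2 (halg x hx)
    · rw [Set.mem_singleton_iff.1 hx]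
      exact mem_algebraicClosure_iff.2 (isAlgebraic_algebraMap
        (⟨s, IntermediateField.mem_adjoin_simple_self κ s⟩ : IntermediateField.adjoin κ {s}))
  have hle' : ∀ x ∈ L, IsAlgebraic (IntermediateField.adjoin κ {s}) x :=
    fun x hx => mem_algebraicClosure_iff.1 (hle hx)
  refine ⟨?_, hle'⟩
  let x : L := ⟨s, IntermediateField.subset_adjoin κ _ (Or.inr rfl)⟩
  have hx : Transcendental κ x := by
    intro h
    exact hs (h.algHom L.val)
  refine ff_of x hx ?_
  have hess : Algebra.EssFiniteType κ L := IntermediateField.essFiniteType_iff.2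
    ⟨(hG.union (Set.finite_singleton s)).toFinset, by simp [hL]⟩
  have hess' : Algebra.EssFiniteType (IntermediateField.adjoin κ {x}) L :=
    Algebra.EssFiniteType.of_comp κ _ _
  have halg' : Algebra.IsAlgebraic (IntermediateField.adjoin κ {x}) L := by
    refine ⟨fun a => alg_pull L.val {x} ?_⟩
    rw [Set.image_singleton]
    exact hle' a a.2
  exact Algebra.finite_of_essFiniteType_of_isAlgebraic

theorem crv_main (hDed : DedStmt) (hΩ : Cardinal.aleph0 ≤ Algebra.trdeg k Ω) (j₀ : M →ₐ[k] Ω)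
    (K₁ K₂ : IntermediateField k M) (hfg₁ : K₁.FG) (hfg₂ : K₂.FG)
    (h₁ : Algebra.trdeg k K₁ ≤ 1) (h₂ : Algebra.trdeg k K₂ ≤ 1)
    (h : Algebra.trdeg k (K₁ ⊔ K₂ : IntermediateField k M) = 2) :
    ∃ (k' : IntermediateField k Ω) (_ : Finite k') (d : ℕ) (_ : NeZero d) (T : Tab Ω d)
      (_ : IsDedekindDomain (WB T)) (_ : Tk k' T) (P Q : WB T →ₐ[Ω] Ω),
      GenP k' ⊥ P ∧ GenP k' (kP k' P) Q ∧
        ∀ x ∈ K₁ ⊔ K₂, j₀ x ∈ (kP k' P ⊔ kP k' Q : IntermediateField k' Ω) := by
  obtain ⟨t₁, t₂, ht₁, ht₂, htr, hind⟩ := exists_two K₁ K₂ h₁ h₂ h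
  obtain ⟨S₁, rfl⟩ := hfg₁
  obtain ⟨S₂, rfl⟩ := hfg₂
  let κ : IntermediateField k Ω := algebraicClosure k Ω
  have hκ : IsAlgClosed κ := IsAlgClosure.isAlgClosed (R := k)
  have hκmem : ∀ {x : Ω}, x ∈ κ ↔ IsAlgebraic k x := mem_algebraicClosure_iff
  have hκalg : ∀ {x : Ω}, IsAlgebraic κ x → IsAlgebraic k x := fun hx => hx.restrictScalars k
  let s₁ := j₀ t₁
  let s₂ := j₀ t₂
  have hs₁ : Transcendental κ s₁ := by
    intro h3
    exact htr ((isAlgebraic_algHom_iff j₀ j₀.injective).1 (hκalg h3))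
  have hind' : ¬ IsAlgebraic (IntermediateField.adjoin k {s₁}) s₂ := by
    intro h3
    apply hind
    apply alg_pull j₀
    rw [Set.image_singleton]
    exact h3
  have hs₂ : Transcendental κ s₂ := by
    intro h3
    exact hind' ((hκalg h3).tower_top _)
  obtain ⟨σ, hσ⟩ := exists_sigma hs₁ hs₂
  have hσ' : σ.symm s₂ = s₁ := by rw [← hσ, σ.symm_apply_apply]
  let G : Set Ω := j₀ '' (S₁ : Set M) ∪ σ.symm '' (j₀ '' (S₂ : Set M))
  have hG : G.Finite := (S₁.finite_toSet.image _).union ((S₂.finite_toSet.image _).image _)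
  have hGalg : ∀ g ∈ G, IsAlgebraic (IntermediateField.adjoin κ {s₁}) g := by
    rintro g (⟨a, ha, rfl⟩ | ⟨_, ⟨a, ha, rfl⟩, rfl⟩)
    · have h3 := alg_push j₀ _ (ht₁ a (IntermediateField.subset_adjoin k _ ha))
      rw [Set.image_singleton] at h3
      exact alg_up κ _ h3
    · have h3 := alg_push j₀ _ (ht₂ a (IntermediateField.subset_adjoin k _ ha))
      rw [Set.image_singleton] at h3
      have h4 := alg_push (σ.symm : Ω →ₐ[κ] Ω) _ (alg_up κ _ h3)
      rw [Set.image_singleton] at h4
      have h5 : (σ.symm : Ω →ₐ[κ] Ω) (j₀ t₂) = s₁ := hσ'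
      rw [h5] at h4
      exact h4
  obtain ⟨hF, hLalg⟩ := ff_adjoin hs₁ G hG hGalg
  set L := IntermediateField.adjoin κ (G ∪ {s₁}) with hL
  -- a place
  let x₁ : L := ⟨s₁, IntermediateField.subset_adjoin κ _ (Or.inr rfl)⟩
  obtain ⟨O₁, hO₁⟩ : ∃ O₁ : ValuationSubring L, IsPl κ O₁ := by
    by_contra hno
    push Not at hno
    obtain ⟨c, hc⟩ := mem_const x₁ (fun O hO => absurd hO (hno O))
    apply hs₁
    have h3 : s₁ = algebraMap κ Ω c := congrArg (fun z : L => (z : Ω)) hc
    rw [h3]
    exact isAlgebraic_algebraMap c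
  obtain ⟨d, hd, T, E, hM⟩ := GTP.exists_model hF hO₁
  let φ₀ : WB T →ₐ[κ] L := { E with commutes' := hM.alg }
  let φ₁ : WB T →ₐ[κ] Ω := L.val.comp φ₀
  have hφ₁ : Function.Injective φ₁ := fun a b hab => hM.inj (Subtype.ext hab)
  let φ₂ : WB T →ₐ[κ] Ω := (σ : Ω →ₐ[κ] Ω).comp φ₁
  obtain ⟨P, hPx, hPf, hP⟩ := exists_point φ₁
  obtain ⟨Q, hQx, hQf, hQ⟩ := exists_point φ₂
  -- the generators as fractions
  have hfrac : ∀ g : G, ∃ a b : WB T, b ≠ 0 ∧ (g : Ω) * φ₁ b = φ₁ a := by
    intro g
    obtain ⟨a, b, hb, hab⟩ := hM.frac (⟨g, IntermediateField.subset_adjoin κ _ (Or.inl g.2)⟩ : L)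
    exact ⟨a, b, hb, congrArg (fun z : L => (z : Ω)) hab⟩
  choose a b hb hab using hfrac
  -- the coefficients
  let Cf₀ : Set Ω := (⋃ i, ⋃ j, ⋃ l, Set.range (fun n => algebraMap κ Ω ((T.c i j l).coeff n))) ∪
    ⋃ g : G, ⋃ j, (Set.range (fun n => algebraMap κ Ω (((a g).co j).coeff n)) ∪
      Set.range (fun n => algebraMap κ Ω (((b g).co j).coeff n)))
  have hfinG : Finite G := hG
  have hrange : ∀ p : Polynomial κ, (Set.range (fun n => algebraMap κ Ω (p.coeff n))).Finite := by
    intro p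
    have h3 := (coeff_fin p).image (algebraMap κ Ω)
    rwa [← Set.range_comp] at h3
  have hCf : Cf₀.Finite := by
    refine Set.Finite.union ?_ ?_
    · exact Set.finite_iUnion fun i => Set.finite_iUnion fun j => Set.finite_iUnion fun l => hrange _
    · exact Set.finite_iUnion fun g => Set.finite_iUnion fun j => (hrange _).union (hrange _)
  let k' : IntermediateField k Ω := IntermediateField.adjoin k Cf₀
  have hint : ∀ x ∈ Cf₀, IsIntegral k x := by
    rintro x (hx | hx)
    · simp only [Set.mem_iUnion, Set.mem_range] at hx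
      obtain ⟨i, j, l, n, rfl⟩ := hx
      exact (hκmem.1 ((T.c i j l).coeff n).2).isIntegral
    · simp only [Set.mem_iUnion, Set.mem_union, Set.mem_range] at hx
      obtain ⟨g, j, (⟨n, rfl⟩ | ⟨n, rfl⟩)⟩ := hx
      · exact (hκmem.1 (((a g).co j).coeff n).2).isIntegral
      · exact (hκmem.1 (((b g).co j).coeff n).2).isIntegral
  have hfin : Finite k' := by
    have : Finite Cf₀ := hCf
    have h3 : FiniteDimensional k k' := IntermediateField.finiteDimensional_adjoin hint
    exact Module.finite_of_finite k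
  have hk'alg : ∀ x ∈ k', IsAlgebraic k x := by
    have : Finite Cf₀ := hCf
    have h3 : FiniteDimensional k k' := IntermediateField.finiteDimensional_adjoin hint
    intro x hx
    exact IsAlgebraic.algHom k'.val (Algebra.IsAlgebraic.isAlgebraic (⟨x, hx⟩ : k'))
  have hk'κ : ∀ x ∈ k', x ∈ κ := fun x hx => hκmem.2 (hk'alg x hx)
  let TΩ : Tab Ω d := T.map (algebraMap κ Ω)
  have hTk : Tk k' TΩ := by
    refine exists_tab (algebraMap k' Ω) (algebraMap k' Ω).injective TΩ (fun i j l n => ?_)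
    refine ⟨⟨(TΩ.c i j l).coeff n, ?_⟩, rfl⟩
    refine IntermediateField.subset_adjoin k _ (Or.inl ?_)
    simp only [Set.mem_iUnion, Set.mem_range]
    exact ⟨i, j, l, n, by rw [Tab.map_c, coeff_map]⟩
  have hDedΩ : IsDedekindDomain (WB TΩ) := hDed κ Ω d T (algebraMap κ Ω) hM.ded
  have hval : ∀ (c : WB T), (∀ j n, algebraMap κ Ω ((c.co j).coeff n) ∈ k') →
      φ₁ c ∈ kP k' P ∧ φ₂ c ∈ kP k' Q := by
    intro c hc
    have hcf : Cf (Set.range (algebraMap k' Ω)) (bmap (algebraMap κ Ω) rfl c : WB TΩ) := by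
      intro j n
      refine ⟨⟨_, hc j n⟩, ?_⟩
      show algebraMap κ Ω ((c.co j).coeff n) = (((c.co j).map (algebraMap κ Ω))).coeff n
      rw [coeff_map]
    constructor
    · rw [← hP]
      exact IntermediateField.subset_adjoin k' _ ⟨_, hcf, rfl⟩
    · rw [← hQ]
      exact IntermediateField.subset_adjoin k' _ ⟨_, hcf, rfl⟩
  have hca : ∀ (g : G) j n, algebraMap κ Ω (((a g).co j).coeff n) ∈ k' := by
    intro g j n
    refine IntermediateField.subset_adjoin k _ (Or.inr ?_)
    simp only [Set.mem_iUnion, Set.mem_union, Set.mem_range]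
    exact ⟨g, j, Or.inl ⟨n, rfl⟩⟩
  have hcb : ∀ (g : G) j n, algebraMap κ Ω (((b g).co j).coeff n) ∈ k' := by
    intro g j n
    refine IntermediateField.subset_adjoin k _ (Or.inr ?_)
    simp only [Set.mem_iUnion, Set.mem_union, Set.mem_range]
    exact ⟨g, j, Or.inr ⟨n, rfl⟩⟩
  have hb0 : ∀ g, φ₁ (b g) ≠ 0 := fun g h3 => hb g (hφ₁ (by rw [h3, map_zero]))
  have hxtr : Transcendental κ (φ₁ (WB.x T)) := by
    rw [transcendental_iff]
    intro p hp
    have h3 := φ_smul φ₁ p 1
    rw [hp, zero_mul] at h3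
    have h4 : p • (1 : WB T) = 0 := hφ₁ (by rw [h3, map_zero])
    rw [← Algebra.algebraMap_eq_smul_one] at h4
    exact WB.algebraMap_injective (by rw [h4, map_zero])
  have hkκ : ∀ {x : Ω}, IsAlgebraic k' x → IsAlgebraic κ x := by
    intro x hx
    have : Finite Cf₀ := hCf
    have h3 : FiniteDimensional k k' := IntermediateField.finiteDimensional_adjoin hint
    exact (hx.restrictScalars k).tower_top _
  refine ⟨k', hfin, d, hd, TΩ, hDedΩ, hTk, P, Q, ⟨WB.x TΩ, TIF.cf_x, ?_⟩,
    ⟨WB.x TΩ, TIF.cf_x, ?_⟩, ?_⟩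
  · intro h3
    rw [hPx] at h3
    exact hxtr (hkκ (h3.restrictScalars k'))
  · intro h3
    rw [hQx] at h3
    let A := algebraicClosure (IntermediateField.adjoin κ {s₁}) Ω
    have hLA : ∀ x ∈ L, x ∈ A := fun x hx => mem_algebraicClosure_iff.2 (hLalg x hx)
    have hPL : ∀ x ∈ kP k' P, x ∈ L := by
      let L' : IntermediateField k' Ω :=
        { L.toSubfield with
          algebraMap_mem' := fun x => L.algebraMap_mem ⟨x, hk'κ x x.2⟩ }
      have h4 : kP k' P ≤ L' := by
        rw [kP_eq, IntermediateField.adjoin_le_iff]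
        rintro x (hx | ⟨j, rfl⟩)
        · rw [Set.mem_singleton_iff.1 hx, hPx]
          exact (φ₀ (WB.x T)).2
        · show P (WB.f TΩ j) ∈ L
          rw [hPf]
          exact (φ₀ (WB.f T j)).2
      exact h4
    have h4 : φ₂ (WB.x T) ∈ A := by
      refine mem_algebraicClosure_iff.2 (alg_cl _ ?_)
      obtain ⟨p, hp0, hp⟩ := h3
      let g : kP k' P →+* A :=
        { toFun := fun x => ⟨x, hLA x (hPL x x.2)⟩
          map_one' := rfl
          map_zero' := rfl
          map_add' := fun _ _ => rfl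
          map_mul' := fun _ _ => rfl }
      refine ⟨p.map g, (Polynomial.map_ne_zero_iff g.injective).2 hp0, ?_⟩
      rw [Polynomial.aeval_def, Polynomial.eval₂_map]
      exact hp
    have h5 : IsAlgebraic (IntermediateField.adjoin κ {φ₂ (WB.x T)}) s₂ := by
      have h6 : Transcendental κ (φ₀ (WB.x T)) := fun h7 => hxtr (h7.algHom L.val)
      have h7 := hF.fin _ h6
      have h8 : IsAlgebraic (IntermediateField.adjoin κ {φ₀ (WB.x T)}) x₁ :=
        Algebra.IsAlgebraic.isAlgebraic x₁
      have h9 := alg_push L.val _ h8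
      rw [Set.image_singleton] at h9
      have h10 := alg_push (σ : Ω →ₐ[κ] Ω) _ h9
      rw [Set.image_singleton] at h10
      have h11 : (σ : Ω →ₐ[κ] Ω) (L.val x₁) = s₂ := hσ
      rw [h11] at h10
      exact h10
    have h6 : s₂ ∈ A := by
      refine mem_algebraicClosure_iff.2 (alg_cl (IntermediateField.adjoin κ {s₁}) ?_)
      have h7 : IntermediateField.adjoin κ {φ₂ (WB.x T)} ≤ A.restrictScalars κ := by
        rw [IntermediateField.adjoin_simple_le_iff]
        exact h4
      exact alg_mono h7 h5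
    apply hind'
    let B := algebraicClosure (IntermediateField.adjoin k {s₁}) Ω
    have h7 : ∀ x ∈ IntermediateField.adjoin κ {s₁}, x ∈ B := by
      let B' : IntermediateField κ Ω :=
        { B.toSubfield with
          algebraMap_mem' := fun x =>
            mem_algebraicClosure_iff.2 ((hκmem.1 x.2).tower_top _) }
      have h8 : IntermediateField.adjoin κ {s₁} ≤ B' := by
        rw [IntermediateField.adjoin_simple_le_iff]
        exact mem_algebraicClosure_iff.2 (isAlgebraic_algebraMap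
          (⟨s₁, IntermediateField.mem_adjoin_simple_self k s₁⟩ : IntermediateField.adjoin k {s₁}))
      exact h8
    refine alg_cl _ ?_
    obtain ⟨p, hp0, hp⟩ := mem_algebraicClosure_iff.1 h6
    let g : IntermediateField.adjoin κ {s₁} →+* B :=
      { toFun := fun x => ⟨x, h7 x x.2⟩
        map_one' := rfl
        map_zero' := rfl
        map_add' := fun _ _ => rfl
        map_mul' := fun _ _ => rfl }
    refine ⟨p.map g, (Polynomial.map_ne_zero_iff g.injective).2 hp0, ?_⟩
    rw [Polynomial.aeval_def, Polynomial.eval₂_map]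
    exact hp
  · let W : IntermediateField k' Ω := kP k' P ⊔ kP k' Q
    have h3 : IntermediateField.adjoin k (S₁ : Set M) ⊔ IntermediateField.adjoin k (S₂ : Set M) ≤
        (W.restrictScalars k).comap j₀ := by
      refine sup_le ?_ ?_
      · rw [IntermediateField.adjoin_le_iff]
        intro x hx
        show j₀ x ∈ W
        let g : G := ⟨j₀ x, Or.inl ⟨x, hx, rfl⟩⟩
        have h4 : j₀ x = φ₁ (a g) / φ₁ (b g) := by
          rw [eq_div_iff (hb0 g)]
          exact hab g
        rw [h4]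
        exact (le_sup_left : kP k' P ≤ W) (div_mem (hval _ (hca g)).1 (hval _ (hcb g)).1)
      · rw [IntermediateField.adjoin_le_iff]
        intro x hx
        show j₀ x ∈ W
        let g : G := ⟨σ.symm (j₀ x), Or.inr ⟨_, ⟨x, hx, rfl⟩, rfl⟩⟩
        have h5 : φ₂ (b g) ≠ 0 := by
          intro h6
          exact hb0 g ((map_eq_zero_iff (σ : Ω →ₐ[κ] Ω) σ.injective).1 h6)
        have h4 : j₀ x = φ₂ (a g) / φ₂ (b g) := by
          rw [eq_div_iff h5]
          have h6 := congrArg σ (hab g)
          rw [map_mul, σ.apply_symm_apply] at h6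
          exact h6
        rw [h4]
        exact (le_sup_right : kP k' Q ≤ W) (div_mem (hval _ (hca g)).2 (hval _ (hcb g)).2)
    exact fun x hx => h3 hx

end main

/-- **block CRV** -/
theorem crv_of_ded (hDed : DedStmt) : CrvStmt := by
  intro k M _ _ _ _ _ K₁ K₂ hfg₁ hfg₂ h₁ h₂ h
  obtain ⟨Ω, _, _, _, j₀, hΩ⟩ := exists_univ k M
  obtain ⟨k', hfin, d, hd, T, hT, hTk, P, Q, hP, hQ, hK⟩ :=
    crv_main hDed hΩ j₀ K₁ K₂ hfg₁ hfg₂ h₁ h₂ h
  have hU : Univ k Ω := univ_of_trdeg hΩ
  refine ⟨k', Ω, inferInstance, hfin, inferInstance, inferInstance, inferInstance, inferInstance,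
    inferInstance, inferInstance, Univ.of_finite hU, d, hd, T, hT, hTk, P, Q,
    j₀.comp (K₁ ⊔ K₂ : IntermediateField k M).val, hP, hQ, fun x => hK x x.2⟩

end TIFCRV
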