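import Mathlib
import Pool.Agent.MP_c1dca2_ag.GT.P1b
import Pool.Agent.MP_c1dca2_ag.GT.P1c
import Pool.Agent.TIFCRV.Sep
import Pool.Agent.MP_c1dca2_ag.GT.A3
import Pool.Agent.MP_c1dca2_ag.GT.A7

/-!
# [TIF] TORS-2: smoothness does not depend on the algebraically closed field
-/

set_option autoImplicit false
set_option linter.unusedSectionVars false

open Polynomial GT

namespace TIFCRV

/-! ### a local criterion -/

theorem ded_of_local {B : Type} [CommRing B] [IsDomain B] [IsNoetherianRing B]
    (hdim : ∀ P : Ideal B, P ≠ ⊥ → P.IsPrime → P.IsMaximal)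
    (h : ∀ m : Ideal B, m.IsMaximal → m ≠ ⊥ →
      ∃ π ∈ m, ∃ s, s ∉ m ∧ ∀ x ∈ m, ∃ y, s * x = y * π) : IsDedekindDomain B := by
  have h0 : IsDedekindDomainDvr B :=
    { (inferInstance : IsNoetherian B B) with
      is_dvr_at_nonzero_prime := by
        intro P hP0 hP
        have hPm := hdim P hP0 hP
        obtain ⟨π, hπ, s, hs, hx⟩ := h P hPm hP0
        have hnf : ¬ IsField (Localization.AtPrime P) :=
          IsLocalization.AtPrime.not_isField B hP0 (Localization.AtPrime P)
        refine ((IsDiscreteValuationRing.TFAE (Localization.AtPrime P) hnf).out 4 0).1 ?_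
        refine ⟨⟨algebraMap B (Localization.AtPrime P) π, ?_⟩⟩
        rw [← Localization.AtPrime.map_eq_maximalIdeal]
        refine le_antisymm ?_ ?_
        · rw [Ideal.map_le_iff_le_comap]
          intro x hxP
          obtain ⟨y, hy⟩ := hx x hxP
          rw [Ideal.mem_comap]
          have hu : IsUnit (algebraMap B (Localization.AtPrime P) s) :=
            IsLocalization.map_units (Localization.AtPrime P) (⟨s, hs⟩ : P.primeCompl)
          have h1 : algebraMap B (Localization.AtPrime P) s * algebraMap B (Localization.AtPrime P) x ∈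
              Submodule.span (Localization.AtPrime P) {algebraMap B (Localization.AtPrime P) π} := by
            rw [← map_mul, hy, map_mul]
            exact Submodule.smul_mem _ _ (Submodule.mem_span_singleton_self _)
          exact (Ideal.unit_mul_mem_iff_mem _ hu).1 h1
        · rw [Submodule.span_le, Set.singleton_subset_iff]
          exact Ideal.mem_map_of_mem _ hπ }
  infer_instance

section

variable {κ : Type} [Field κ] {d : ℕ} [NeZero d] {T : Tab κ d}

theorem wb_dim (P : Ideal (WB T)) (h0 : P ≠ ⊥) (hP : P.IsPrime) : P.IsMaximal := by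
  have hint : Algebra.IsIntegral κ[X] (WB T) := Algebra.IsIntegral.of_finite _ _
  have h1 : P.comap (algebraMap κ[X] (WB T)) ≠ ⊥ := by
    obtain ⟨x, hx, hx0⟩ := Submodule.exists_mem_ne_zero_of_ne_bot h0
    exact Ideal.comap_ne_bot_of_integral_mem hx0 hx (hint.isIntegral x)
  have h2 : (P.comap (algebraMap κ[X] (WB T))).IsPrime := Ideal.comap_isPrime _ _
  have h3 : (P.comap (algebraMap κ[X] (WB T))).IsMaximal := h2.isMaximal h1
  exact Ideal.isMaximal_of_isIntegral_of_isMaximal_comap P h3

theorem wb_noeth : IsNoetherianRing (WB T) :=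
  IsNoetherianRing.of_finite κ[X] (WB T)

/-- points and maximal ideals -/
theorem exists_hom' [IsAlgClosed κ] (Q : Ideal (WB T)) (hQ : Q.IsMaximal) :
    ∃ χ : WB T →ₐ[κ] κ, RingHom.ker χ = Q := by
  have hft : Algebra.FiniteType κ (WB T) :=
    Algebra.FiniteType.trans (S := κ[X]) inferInstance inferInstance
  have hft2 : Algebra.FiniteType κ (WB T ⧸ Q) :=
    Algebra.FiniteType.of_surjective (Ideal.Quotient.mkₐ κ Q) (Ideal.Quotient.mkₐ_surjective κ Q)
  let _ : Field (WB T ⧸ Q) := Ideal.Quotient.field Q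
  have hfin : Module.Finite κ (WB T ⧸ Q) :=
    finite_of_finite_type_of_isJacobsonRing κ (WB T ⧸ Q)
  have hint : Algebra.IsIntegral κ (WB T ⧸ Q) := Algebra.IsIntegral.of_finite κ _
  have hbij : Function.Bijective (algebraMap κ (WB T ⧸ Q)) :=
    IsAlgClosed.algebraMap_bijective_of_isIntegral
  obtain ⟨E, hE⟩ : ∃ E : κ ≃ₐ[κ] (WB T ⧸ Q),
    E = AlgEquiv.ofBijective (Algebra.ofId κ (WB T ⧸ Q)) hbij := ⟨_, rfl⟩
  refine ⟨(E.symm : (WB T ⧸ Q) →ₐ[κ] κ).comp (Ideal.Quotient.mkₐ κ Q), ?_⟩
  ext x
  rw [RingHom.mem_ker]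
  show E.symm (Ideal.Quotient.mk Q x) = 0 ↔ x ∈ Q
  rw [map_eq_zero_iff E.symm E.symm.injective, Ideal.Quotient.eq_zero_iff_mem]

/-- it is enough to test the generators -/
theorem all_of_gen (P : WB T →ₐ[κ] κ) (s π : WB T)
    (hx : ∃ y, s * (WB.x T - algebraMap κ (WB T) (P (WB.x T))) = y * π)
    (hf : ∀ j, ∃ y, s * (WB.f T j - algebraMap κ (WB T) (P (WB.f T j))) = y * π) (b : WB T) :
    ∃ y, s * (b - algebraMap κ (WB T) (P b)) = y * π := by
  have hadd : ∀ a b : WB T, (∃ y, s * (a - algebraMap κ (WB T) (P a)) = y * π) →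
      (∃ y, s * (b - algebraMap κ (WB T) (P b)) = y * π) →
      ∃ y, s * (a + b - algebraMap κ (WB T) (P (a + b))) = y * π := by
    rintro a b ⟨y, hy⟩ ⟨z, hz⟩
    refine ⟨y + z, ?_⟩
    rw [add_mul, ← hy, ← hz, map_add, map_add]
    ring
  have hmul : ∀ a b : WB T, (∃ y, s * (a - algebraMap κ (WB T) (P a)) = y * π) →
      (∃ y, s * (b - algebraMap κ (WB T) (P b)) = y * π) →
      ∃ y, s * (a * b - algebraMap κ (WB T) (P (a * b))) = y * π := by
    rintro a b ⟨y, hy⟩ ⟨z, hz⟩
    refine ⟨y * b + algebraMap κ (WB T) (P a) * z, ?_⟩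
    have h1 : (y * b + algebraMap κ (WB T) (P a) * z) * π =
        (y * π) * b + algebraMap κ (WB T) (P a) * (z * π) := by ring
    rw [h1, ← hy, ← hz, map_mul, map_mul]
    ring
  have hconst : ∀ c : κ, ∃ y, s * (algebraMap κ (WB T) c -
      algebraMap κ (WB T) (P (algebraMap κ (WB T) c))) = y * π := by
    intro c
    refine ⟨0, ?_⟩
    rw [P.commutes, Algebra.algebraMap_self, RingHom.id_apply, sub_self, mul_zero, zero_mul]
  have hpoly : ∀ p : κ[X], ∃ y, s * (algebraMap κ[X] (WB T) p -
      algebraMap κ (WB T) (P (algebraMap κ[X] (WB T) p))) = y * π := by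
    intro p
    induction p using Polynomial.induction_on' with
    | add p q hp hq =>
      rw [map_add]
      exact hadd _ _ hp hq
    | monomial n a =>
      rw [← C_mul_X_pow_eq_monomial, map_mul, map_pow]
      refine hmul _ _ ?_ ?_
      · rw [← Polynomial.algebraMap_eq, ← IsScalarTower.algebraMap_apply]
        exact hconst a
      · induction n with
        | zero =>
          rw [pow_zero]
          have := hconst 1
          rwa [map_one] at this
        | succ n ih =>
          rw [pow_succ]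
          exact hmul _ _ ih hx
  rw [← WB.sum_f b]
  refine Finset.sum_induction _ (fun b => ∃ y, s * (b - algebraMap κ (WB T) (P b)) = y * π)
    hadd ?_ ?_
  · have := hconst 0
    rwa [map_zero] at this
  · intro j _
    rw [Algebra.smul_def]
    exact hmul _ _ (hpoly _) (hf j)

/-- a maximal ideal of a Dedekind domain is locally principal -/
theorem loc_principal {B : Type} [CommRing B] [IsDedekindDomain B] (m : Ideal B)
    (hm : m.IsMaximal) (h0 : m ≠ ⊥) : ∃ π ∈ m, ∃ s, s ∉ m ∧ ∀ x ∈ m, ∃ y, s * x = y * π := by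
  have hlt : m ^ 2 < m := by
    have h1 : m * m < m := by
      refine lt_of_le_of_ne Ideal.mul_le_left ?_
      intro h2
      have h3 : m * m = m * 1 := by rw [h2, mul_one]
      have h4 := mul_left_cancel₀ (show m ≠ 0 from h0) h3
      rw [Ideal.one_eq_top] at h4
      exact hm.ne_top h4
    rwa [pow_two]
  obtain ⟨π, hπ, hπ2⟩ := SetLike.exists_of_lt hlt
  have h1 : (Ideal.span {π}) ≤ m := (Ideal.span_singleton_le_iff_mem m).2 hπ
  obtain ⟨J, hJ⟩ := Ideal.dvd_iff_le.2 h1
  have hJm : ¬ J ≤ m := by
    intro h2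
    apply hπ2
    have h3 : Ideal.span {π} ≤ m ^ 2 := by
      rw [hJ, pow_two]
      exact Ideal.mul_mono_right h2
    exact h3 (Ideal.mem_span_singleton_self π)
  obtain ⟨s, hs, hsm⟩ := SetLike.not_le_iff_exists.1 hJm
  refine ⟨π, hπ, s, hsm, fun x hx => ?_⟩
  have h2 : x * s ∈ Ideal.span {π} := by
    rw [hJ]
    exact Ideal.mul_mem_mul hx hs
  obtain ⟨y, hy⟩ := Ideal.mem_span_singleton'.1 h2
  exact ⟨y, by rw [hy, mul_comm]⟩

/-! ### a separating element in the ring -/

section sep

variable {κ : Type} [Field κ] {d : ℕ} [NeZero d] (T : Tab κ d)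

theorem x_tr : Transcendental κ (algebraMap (WB T) (FractionRing (WB T)) (WB.x T)) := by
  rw [transcendental_iff]
  intro p hp
  have h1 : aeval (algebraMap (WB T) (FractionRing (WB T)) (WB.x T)) p =
      algebraMap (WB T) (FractionRing (WB T)) (aeval (WB.x T) p) :=
    aeval_algebraMap_apply _ _ _
  rw [h1] at hp
  have h2 : aeval (WB.x T) p = 0 := IsFractionRing.injective (WB T) _ (by rw [hp, map_zero])
  have h3 : aeval (WB.x T) p = algebraMap κ[X] (WB T) p := by
    have h4 : (aeval (WB.x T) : κ[X] →ₐ[κ] WB T) = IsScalarTower.toAlgHom κ κ[X] (WB T) := by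
      ext
      rw [aeval_X]
      rfl
    rw [h4]
    rfl
  rw [h3] at h2
  exact WB.algebraMap_injective (by rw [h2, map_zero])

theorem wb_ff : FF κ (FractionRing (WB T)) := by
  let L := FractionRing (WB T)
  let x : L := algebraMap (WB T) L (WB.x T)
  refine ff_of x (x_tr T) ?_
  have h1 : Algebra.EssFiniteType κ L := by
    have h2 : Algebra.FiniteType κ (WB T) :=
      Algebra.FiniteType.trans (S := κ[X]) inferInstance inferInstance
    have h3 : Algebra.EssFiniteType (WB T) L :=
      Algebra.EssFiniteType.of_isLocalization L (nonZeroDivisors (WB T))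
    exact Algebra.EssFiniteType.comp κ (WB T) L
  have h2 : Algebra.EssFiniteType (IntermediateField.adjoin κ {x}) L :=
    Algebra.EssFiniteType.of_comp κ _ _
  have h3 : Algebra.IsAlgebraic (IntermediateField.adjoin κ {x}) L := by
    refine ⟨fun ℓ => ?_⟩
    have h4 : ∀ b : WB T, algebraMap (WB T) L b ∈ algebraicClosure (IntermediateField.adjoin κ {x}) L := by
      intro b
      rw [mem_algebraicClosure_iff]
      obtain ⟨q, hq, hqb⟩ : IsIntegral κ[X] b := IsIntegral.of_finite κ[X] b
      let θ : IntermediateField.adjoin κ {x} := ⟨x, IntermediateField.mem_adjoin_simple_self κ x⟩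
      let g : κ[X] →+* IntermediateField.adjoin κ {x} := (aeval θ : κ[X] →ₐ[κ] _)
      have hg : (algebraMap (IntermediateField.adjoin κ {x}) L).comp g =
          (algebraMap (WB T) L).comp (algebraMap κ[X] (WB T)) := by
        refine Polynomial.ringHom_ext (fun a => ?_) ?_
        · show ((aeval θ (C a) : IntermediateField.adjoin κ {x}) : L) =
            algebraMap (WB T) L (algebraMap κ[X] (WB T) (C a))
          rw [aeval_C, ← Polynomial.algebraMap_eq, ← IsScalarTower.algebraMap_apply,
            ← IsScalarTower.algebraMap_apply]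
          rfl
        · show ((aeval θ X : IntermediateField.adjoin κ {x}) : L) =
            algebraMap (WB T) L (algebraMap κ[X] (WB T) X)
          rw [aeval_X]
          rfl
      refine ⟨q.map g, (hq.map g).ne_zero, ?_⟩
      rw [Polynomial.aeval_def, Polynomial.eval₂_map, hg]
      have h5 := congrArg (algebraMap (WB T) L) hqb
      rw [map_zero, Polynomial.hom_eval₂] at h5
      exact h5
    obtain ⟨a, b, hb, rfl⟩ := IsFractionRing.div_surjective (A := WB T) ℓ
    exact mem_algebraicClosure_iff.1 (div_mem (h4 a) (h4 b))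
  exact Algebra.finite_of_essFiniteType_of_isAlgebraic

theorem exists_sep_mem [IsAlgClosed κ] : ∃ t : WB T,
    Algebra.IsSeparable (IntermediateField.adjoin κ {algebraMap (WB T) (FractionRing (WB T)) t})
      (FractionRing (WB T)) := by
  let L := FractionRing (WB T)
  have hF : FF κ L := wb_ff T
  have hx := x_tr T
  obtain hc | ⟨p, hp, hpk⟩ := CharP.exists' κ
  · have hfin := hF.fin _ hx
    exact ⟨WB.x T, inferInstance⟩
  · by_cases h : ∃ t : WB T, ∀ v : L, v ^ p ≠ algebraMap (WB T) L t
    · obtain ⟨t, ht⟩ := h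
      have htr : Transcendental κ (algebraMap (WB T) L t) := by
        refine transc_of fun c hc => ?_
        obtain ⟨e, he⟩ := IsAlgClosed.exists_pow_nat_eq c hp.out.pos
        exact ht (algebraMap κ L e) (by rw [← map_pow, he, hc])
      exact ⟨t, GTP.sep_of_not_pow hF htr ht⟩
    · exfalso
      push Not at h
      have h1 : ∀ ℓ : L, ∃ v : L, v ^ p = ℓ := by
        intro ℓ
        obtain ⟨a, b, hb, rfl⟩ := IsFractionRing.div_surjective (A := WB T) ℓ
        obtain ⟨v, hv⟩ := h a
        obtain ⟨w, hw⟩ := h b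
        exact ⟨v / w, by rw [div_pow, hv, hw]⟩
      have h2 : ∀ n : ℕ, ∃ v : L, v ^ p ^ n = algebraMap (WB T) L (WB.x T) := by
        intro n
        induction n with
        | zero => exact ⟨_, by rw [pow_zero, pow_one]⟩
        | succ n ih =>
          obtain ⟨v, hv⟩ := ih
          obtain ⟨w, hw⟩ := h1 v
          exact ⟨w, by rw [pow_succ', pow_mul, hw, hv]⟩
      obtain ⟨N, hN⟩ : ∃ N, N = Module.finrank
        (IntermediateField.adjoin κ {algebraMap (WB T) L (WB.x T)}) L := ⟨_, rfl⟩
      obtain ⟨v, hv⟩ := h2 N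
      have hvt : Transcendental κ v := by
        intro h3
        apply hx
        rw [← hv]
        exact h3.pow _
      have h3 := GTP.finrank_pow hF hvt (pow_pos hp.out.pos N)
      rw [hv, ← hN] at h3
      have hfin := hF.fin v hvt
      have h4 : 0 < Module.finrank (IntermediateField.adjoin κ {v}) L := Module.finrank_pos
      have h5 : N < p ^ N := Nat.lt_pow_self hp.out.one_lt
      nlinarith

open scoped IntermediateField.algebraAdjoinAdjoin in
/-- a separable equation with polynomial coefficients -/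
theorem exists_poly' {κ L : Type} [Field κ] [Field L] [Algebra κ L] (t α : L)
    (hsep : IsSeparable (IntermediateField.adjoin κ {t}) α) :
    ∃ G : Polynomial (Polynomial κ), eval₂ (aeval t : κ[X] →ₐ[κ] L).toRingHom α G = 0 ∧
      eval₂ (aeval t : κ[X] →ₐ[κ] L).toRingHom α (derivative G) ≠ 0 := by
  have h2 : aeval α (derivative (minpoly (IntermediateField.adjoin κ {t}) α)) ≠ 0 :=
    Polynomial.Separable.aeval_derivative_ne_zero hsep (minpoly.aeval _ α)
  obtain ⟨b, hb0, hb⟩ := IsLocalization.integerNormalization_spec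
    (nonZeroDivisors (Algebra.adjoin κ {t})) (minpoly (IntermediateField.adjoin κ {t}) α)
  set G₁ := IsLocalization.integerNormalization (nonZeroDivisors (Algebra.adjoin κ {t}))
    (minpoly (IntermediateField.adjoin κ {t}) α) with hG₁
  have hsur : ∀ y : Algebra.adjoin κ {t}, ∃ q : κ[X], aeval t q = (y : L) := by
    intro y
    obtain ⟨y, hy⟩ := y
    rw [Algebra.adjoin_singleton_eq_range_aeval] at hy
    exact hy
  let φ : κ[X] →+* Algebra.adjoin κ {t} :=
    (aeval (⟨t, Algebra.subset_adjoin (Set.mem_singleton t)⟩ : Algebra.adjoin κ {t}) :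
      κ[X] →ₐ[κ] Algebra.adjoin κ {t})
  have hφ : ∀ q : κ[X], ((φ q : Algebra.adjoin κ {t}) : L) = aeval t q := by
    intro q
    exact (aeval_algHom_apply (Algebra.adjoin κ {t}).val _ q).symm
  have hφs : Function.Surjective φ := by
    intro y
    obtain ⟨q, hq⟩ := hsur y
    exact ⟨q, Subtype.ext ((hφ q).trans hq)⟩
  obtain ⟨G, hG⟩ := Polynomial.map_surjective φ hφs G₁
  have hcomp : (aeval t : κ[X] →ₐ[κ] L).toRingHom =
      (algebraMap (IntermediateField.adjoin κ {t}) L).comp
        ((algebraMap (Algebra.adjoin κ {t}) (IntermediateField.adjoin κ {t})).comp φ) := by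
    refine RingHom.ext fun q => ?_
    show aeval t q = ((φ q : Algebra.adjoin κ {t}) : L)
    rw [hφ]
  have hval : ∀ H : Polynomial (Polynomial κ),
      eval₂ (aeval t : κ[X] →ₐ[κ] L).toRingHom α H =
        aeval α ((H.map φ).map (algebraMap (Algebra.adjoin κ {t})
          (IntermediateField.adjoin κ {t}))) := by
    intro H
    rw [hcomp, Polynomial.aeval_def, Polynomial.map_map, Polynomial.eval₂_map]
  have hb1 : algebraMap (Algebra.adjoin κ {t}) (IntermediateField.adjoin κ {t}) b ≠ 0 := by
    intro h3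
    exact nonZeroDivisors.ne_zero hb0
      (IsFractionRing.injective (Algebra.adjoin κ {t}) (IntermediateField.adjoin κ {t})
        (by rw [h3, map_zero]))
  have hsm : ∀ p : Polynomial (IntermediateField.adjoin κ {t}), aeval α (b • p) =
      algebraMap (IntermediateField.adjoin κ {t}) L
        (algebraMap (Algebra.adjoin κ {t}) (IntermediateField.adjoin κ {t}) b) * aeval α p := by
    intro p
    have h4 : b • p = C (algebraMap (Algebra.adjoin κ {t})
        (IntermediateField.adjoin κ {t}) b) * p := by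
      rw [← smul_eq_C_mul, algebraMap_smul]
    rw [h4, map_mul, aeval_C]
  refine ⟨G, ?_, ?_⟩
  · rw [hval, hG, hb, hsm, minpoly.aeval, mul_zero]
  · intro h4
    rw [hval, ← Polynomial.derivative_map, ← Polynomial.derivative_map, hG, hb,
      derivative_smul, hsm] at h4
    rcases mul_eq_zero.1 h4 with h6 | h6
    · exact hb1 ((algebraMap (IntermediateField.adjoin κ {t}) L).injective
        (by rw [h6, map_zero]))
    · exact h2 h6

theorem exists_poly {t : WB T}
    (hsep : Algebra.IsSeparable (IntermediateField.adjoin κ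
      {algebraMap (WB T) (FractionRing (WB T)) t}) (FractionRing (WB T))) (α : WB T) :
    ∃ G : Polynomial (Polynomial κ), eval₂ (aeval t : κ[X] →ₐ[κ] WB T).toRingHom α G = 0 ∧
      eval₂ (aeval t : κ[X] →ₐ[κ] WB T).toRingHom α (derivative G) ≠ 0 := by
  obtain ⟨G, h1, h2⟩ := exists_poly' (κ := κ) (algebraMap (WB T) (FractionRing (WB T)) t)
    (algebraMap (WB T) (FractionRing (WB T)) α)
    (Algebra.IsSeparable.isSeparable (IntermediateField.adjoin κ
      {algebraMap (WB T) (FractionRing (WB T)) t}) _)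
  have hcomp : (algebraMap (WB T) (FractionRing (WB T))).comp
      (aeval t : κ[X] →ₐ[κ] WB T).toRingHom =
      (aeval (algebraMap (WB T) (FractionRing (WB T)) t) :
        κ[X] →ₐ[κ] FractionRing (WB T)).toRingHom := by
    refine RingHom.ext fun q => ?_
    exact (aeval_algebraMap_apply _ t q).symm
  refine ⟨G, ?_, ?_⟩
  · apply IsFractionRing.injective (WB T) (FractionRing (WB T))
    rw [map_zero, Polynomial.hom_eval₂, hcomp]
    exact h1
  · intro h3
    apply h2
    have h4 := congrArg (algebraMap (WB T) (FractionRing (WB T))) h3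
    rw [map_zero, Polynomial.hom_eval₂, hcomp] at h4
    exact h4

end sep

end

/-! ### base change -/

section up

variable {κ Ω : Type} [Field κ] [Field Ω] {d : ℕ} [NeZero d] (T : Tab κ d) (g : κ →+* Ω)

theorem bmap_x' : bmap g rfl (WB.x T) = WB.x (T.map g) := by
  refine WB.ext (funext fun j => ?_)
  show ((WB.x T).co j).map g = (WB.x (T.map g)).co j
  rw [WB.x, WB.x, WB.algebraMap_co, WB.algebraMap_co]
  split_ifs
  · rw [Polynomial.map_X]
  · rw [Polynomial.map_zero]

theorem bmap_f' (j : ZMod d) : bmap g rfl (WB.f T j) = WB.f (T.map g) j := by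
  refine WB.ext (funext fun i => ?_)
  show ((WB.f T j).co i).map g = (WB.f (T.map g) j).co i
  rw [WB.f_co, WB.f_co]
  by_cases hij : i = j
  · rw [hij, Pi.single_eq_same, Pi.single_eq_same, Polynomial.map_one]
  · rw [Pi.single_eq_of_ne hij, Pi.single_eq_of_ne hij, Polynomial.map_zero]

theorem bmap_const (c : κ) : bmap g rfl (algebraMap κ (WB T) c) =
    algebraMap Ω (WB (T.map g)) (g c) := by
  refine WB.ext (funext fun j => ?_)
  show ((algebraMap κ (WB T) c).co j).map g = _
  rw [WB.algebraMap_co', WB.algebraMap_co']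
  split_ifs
  · rw [Polynomial.map_C]
  · rw [Polynomial.map_zero]

theorem bmap_aeval (t : WB T) (q : Polynomial κ) : bmap g rfl (aeval t q) =
    aeval (bmap g rfl t : WB (T.map g)) (q.map g) := by
  induction q using Polynomial.induction_on' with
  | add p q hp hq => rw [map_add, map_add, hp, hq, Polynomial.map_add, map_add]
  | monomial n a =>
    rw [aeval_monomial, map_mul, map_pow, bmap_const, Polynomial.map_monomial, aeval_monomial]

/-- the equation at a generic point -/
theorem gen_local (P : WB (T.map g) →ₐ[Ω] Ω) (hinj : ∀ b : WB T, P (bmap g rfl b) = 0 → b = 0)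
    (t α : WB T) (G : Polynomial (Polynomial κ))
    (h1 : eval₂ (aeval t : Polynomial κ →ₐ[κ] WB T).toRingHom α G = 0)
    (h2 : eval₂ (aeval t : Polynomial κ →ₐ[κ] WB T).toRingHom α (derivative G) ≠ 0) :
    ∃ s, P s ≠ 0 ∧ ∃ y, s * (bmap g rfl α - algebraMap Ω (WB (T.map g)) (P (bmap g rfl α))) =
      y * (bmap g rfl t - algebraMap Ω (WB (T.map g)) (P (bmap g rfl t))) := by
  let B := WB (T.map g)
  let ι : WB T →+* B := bmap g rfl
  let τ : B := ι t
  let u : Ω := P τ
  let a : B := ι α
  let v : Ω := P a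
  let eτ : Polynomial Ω →+* B := (aeval τ : Polynomial Ω →ₐ[Ω] B).toRingHom
  have hcomp : eτ.comp (mapRingHom g) = ι.comp (aeval t : Polynomial κ →ₐ[κ] WB T).toRingHom := by
    refine RingHom.ext fun q => ?_
    exact (bmap_aeval T g t q).symm
  let G' : Polynomial (Polynomial Ω) := G.map (mapRingHom g)
  let H : Polynomial B := G'.map eτ
  have hH : ∀ G₀ : Polynomial (Polynomial κ), ((G₀.map (mapRingHom g)).map eτ).eval a =
      ι (eval₂ (aeval t : Polynomial κ →ₐ[κ] WB T).toRingHom α G₀) := by
    intro G₀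
    rw [Polynomial.map_map, hcomp, Polynomial.eval_map, Polynomial.hom_eval₂]
  have hHa : H.eval a = 0 := by
    show ((G.map (mapRingHom g)).map eτ).eval a = 0
    rw [hH, h1, map_zero]
  have hH'a : H.derivative.eval a =
      ι (eval₂ (aeval t : Polynomial κ →ₐ[κ] WB T).toRingHom α (derivative G)) := by
    rw [← hH, Polynomial.derivative_map, Polynomial.derivative_map]
  let vB : B := algebraMap Ω B v
  let uB : B := algebraMap Ω B u
  have hPconst : ∀ c : Ω, P (algebraMap Ω B c) = c := by
    intro c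
    rw [P.commutes]
    rfl
  have hPv : P vB = P a := hPconst _
  -- values of `P` on polynomial expressions
  have hPval : ∀ (K : Polynomial B) (w w' : B), P w = P w' → P (K.eval w) = P (K.eval w') := by
    intro K w w' h
    have h3 : ∀ w : B, P (K.eval w) = (K.map (P : B →+* Ω)).eval (P w) := by
      intro w
      rw [Polynomial.eval_map]
      exact Polynomial.hom_eval₂ K (RingHom.id B) (P : B →+* Ω) w
    rw [h3, h3, h]
  -- `H(v)` is divisible by `τ - u`
  let eu : Polynomial Ω →+* B := (aeval uB : Polynomial Ω →ₐ[Ω] B).toRingHom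
  have hdvd : (τ - uB) ∣ H.eval vB - eval₂ eu vB G' := by
    have h3 : H.eval vB = eval₂ eτ vB G' := Polynomial.eval_map _ _
    rw [h3, Polynomial.eval₂_eq_sum_range, Polynomial.eval₂_eq_sum_range, ← Finset.sum_sub_distrib]
    refine Finset.dvd_sum fun i _ => ?_
    rw [← sub_mul]
    refine Dvd.dvd.mul_right ?_ _
    show (τ - uB) ∣ aeval τ (G'.coeff i) - aeval uB (G'.coeff i)
    rw [aeval_def, aeval_def, ← Polynomial.eval_map, ← Polynomial.eval_map]
    exact Polynomial.sub_dvd_eval_sub _ _ _
  have hzero : eval₂ eu vB G' = 0 := by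
    have h3 : eu = (algebraMap Ω B).comp (Polynomial.evalRingHom u) := by
      refine Polynomial.ringHom_ext (fun c => ?_) ?_
      · show aeval uB (C c) = algebraMap Ω B ((C c).eval u)
        rw [aeval_C, eval_C]
      · show aeval uB X = algebraMap Ω B (X.eval u)
        rw [aeval_X, eval_X]
    have h4 : (P : B →+* Ω).comp eτ = Polynomial.evalRingHom u := by
      refine Polynomial.ringHom_ext (fun c => ?_) ?_
      · show P (aeval τ (C c)) = (C c).eval u
        rw [aeval_C, eval_C, hPconst]
      · show P (aeval τ X) = X.eval u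
        rw [aeval_X, eval_X]
    have h5 : eval₂ (Polynomial.evalRingHom u) v G' = 0 := by
      have h6 : P (H.eval a) = 0 := by rw [hHa, map_zero]
      have h7 : H.eval a = eval₂ eτ a G' := Polynomial.eval_map _ _
      rw [h7] at h6
      have h8 := Polynomial.hom_eval₂ G' eτ (P : B →+* Ω) a
      rw [h4] at h8
      rw [← h6]
      exact h8.symm
    rw [h3]
    have h9 := Polynomial.hom_eval₂ G' (Polynomial.evalRingHom u) (algebraMap Ω B) v
    rw [h5, map_zero] at h9
    exact h9.symm
  rw [hzero, sub_zero] at hdvd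
  obtain ⟨z, hz⟩ := hdvd
  obtain ⟨k, hk⟩ := Polynomial.binomExpansion H vB (a - vB)
  rw [add_sub_cancel, hHa, hz] at hk
  refine ⟨H.derivative.eval vB + k * (a - vB), ?_, -z, ?_⟩
  · rw [map_add, map_mul, map_sub, hPv, sub_self, mul_zero, add_zero, hPval _ vB a hPv, hH'a]
    intro h3
    exact h2 (hinj _ h3)
  · show (H.derivative.eval vB + k * (a - vB)) * (a - vB) = -z * (τ - uB)
    linear_combination -hk

/-- **TORS-2**, first half -/
theorem ded_up [IsAlgClosed κ] [IsAlgClosed Ω] [IsDedekindDomain (WB T)] :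
    IsDedekindDomain (WB (T.map g)) := by
  classical
  have hno : IsNoetherianRing (WB (T.map g)) := wb_noeth
  refine ded_of_local wb_dim ?_
  intro m hm h0
  obtain ⟨P, rfl⟩ := exists_hom' m hm
  let ι : WB T →+* WB (T.map g) := bmap g rfl
  have key : ∀ s π : WB (T.map g), P s ≠ 0 → P π = 0 →
      (∃ y, s * (ι (WB.x T) - algebraMap Ω (WB (T.map g)) (P (ι (WB.x T)))) = y * π) →
      (∀ j, ∃ y, s * (ι (WB.f T j) - algebraMap Ω (WB (T.map g)) (P (ι (WB.f T j)))) = y * π) →
      ∃ π ∈ RingHom.ker P, ∃ s, s ∉ RingHom.ker P ∧ ∀ x ∈ RingHom.ker P, ∃ y, s * x = y * π := by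
    intro s π hs hπ hx hf
    refine ⟨π, hπ, s, hs, fun b hb => ?_⟩
    have hx' : ι (WB.x T) = WB.x (T.map g) := bmap_x' T g
    have hf' : ∀ j, ι (WB.f T j) = WB.f (T.map g) j := bmap_f' T g
    rw [hx'] at hx
    simp only [hf'] at hf
    obtain ⟨y, hy⟩ := all_of_gen P s π hx hf b
    refine ⟨y, ?_⟩
    have hb' : P b = 0 := hb
    rw [hb', map_zero, sub_zero] at hy
    exact hy
  by_cases hker : ∀ b : WB T, P (ι b) = 0 → b = 0
  · obtain ⟨t, hsep⟩ := exists_sep_mem T
    have hgen : ∀ α : WB T, ∃ s, P s ≠ 0 ∧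
        ∃ y, s * (ι α - algebraMap Ω (WB (T.map g)) (P (ι α))) =
          y * (ι t - algebraMap Ω (WB (T.map g)) (P (ι t))) := by
      intro α
      obtain ⟨G, h1, h2⟩ := exists_poly T hsep α
      exact gen_local T g P hker t α G h1 h2
    obtain ⟨s₀, hs₀, y₀, hy₀⟩ := hgen (WB.x T)
    choose s hs y hy using fun j => hgen (WB.f T j)
    refine key (s₀ * ∏ j, s j) (ι t - algebraMap Ω (WB (T.map g)) (P (ι t))) ?_ ?_ ?_ ?_
    · rw [map_mul, map_prod]
      exact mul_ne_zero hs₀ (Finset.prod_ne_zero_iff.2 fun j _ => hs j)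
    · rw [map_sub, P.commutes]
      exact sub_self _
    · refine ⟨(∏ j, s j) * y₀, ?_⟩
      linear_combination (∏ j, s j) * hy₀
    · intro j
      obtain ⟨w, hw⟩ := Finset.dvd_prod_of_mem s (Finset.mem_univ j)
      refine ⟨s₀ * w * y j, ?_⟩
      rw [hw]
      linear_combination (s₀ * w) * hy j
  · let φ : WB T →+* Ω := (P : WB (T.map g) →+* Ω).comp ι
    have hφ0 : RingHom.ker φ ≠ ⊥ := by
      intro h1
      apply hker
      intro b hb
      have h2 : b ∈ RingHom.ker φ := hb
      rw [h1] at h2
      exact h2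
    have hm₀ : (RingHom.ker φ).IsMaximal := wb_dim _ hφ0 (RingHom.ker_isPrime φ)
    obtain ⟨χ, hχ⟩ := exists_hom' (RingHom.ker φ) hm₀
    obtain ⟨π, hπ, s, hs, hsx⟩ := loc_principal (RingHom.ker φ) hm₀ hφ0
    have hval : ∀ b : WB T, P (ι b) = g (χ b) := by
      intro b
      have h1 : b - algebraMap κ (WB T) (χ b) ∈ RingHom.ker φ := by
        rw [← hχ, RingHom.mem_ker, map_sub]
        show χ b - χ (algebraMap κ (WB T) (χ b)) = 0
        rw [χ.commutes]
        exact sub_self _
      have h2 : P (ι (b - algebraMap κ (WB T) (χ b))) = 0 := h1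
      rw [map_sub, map_sub, bmap_const, P.commutes] at h2
      exact sub_eq_zero.1 h2
    have hall : ∀ b : WB T, ∃ y, ι s * (ι b - algebraMap Ω (WB (T.map g)) (P (ι b))) = y * ι π := by
      intro b
      have h1 : b - algebraMap κ (WB T) (χ b) ∈ RingHom.ker φ := by
        rw [← hχ, RingHom.mem_ker, map_sub]
        show χ b - χ (algebraMap κ (WB T) (χ b)) = 0
        rw [χ.commutes]
        exact sub_self _
      obtain ⟨y, hy⟩ := hsx _ h1
      refine ⟨ι y, ?_⟩
      rw [← map_mul, ← hy, map_mul, map_sub, hval, bmap_const]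
    exact key (ι s) (ι π) hs hπ (hall _) (fun j => hall _)

/-- the coefficientwise map -/
noncomputable def lamP (lam : Ω →+ κ) (p : Polynomial Ω) : Polynomial κ :=
  ∑ n ∈ Finset.range (p.natDegree + 1), C (lam (p.coeff n)) * X ^ n

theorem lamP_coeff (lam : Ω →+ κ) (p : Polynomial Ω) (n : ℕ) :
    (lamP lam p).coeff n = lam (p.coeff n) := by
  rw [lamP, finsetSum_coeff]
  simp only [coeff_C_mul_X_pow]
  rw [Finset.sum_ite_eq]
  split_ifs with h
  · rfl
  · rw [Finset.mem_range, not_lt] at h
    rw [coeff_eq_zero_of_natDegree_lt (by omega), map_zero]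

theorem lamP_add (lam : Ω →+ κ) (p q : Polynomial Ω) : lamP lam (p + q) = lamP lam p + lamP lam q := by
  ext n
  rw [lamP_coeff, coeff_add, coeff_add, lamP_coeff, lamP_coeff, map_add]

theorem lamP_sum (lam : Ω →+ κ) {ι : Type} (s : Finset ι) (p : ι → Polynomial Ω) :
    lamP lam (∑ i ∈ s, p i) = ∑ i ∈ s, lamP lam (p i) := by
  ext n
  rw [lamP_coeff, finsetSum_coeff, finsetSum_coeff, map_sum]
  exact Finset.sum_congr rfl fun i _ => (lamP_coeff _ _ _).symm

theorem lamP_mul {lam : Ω →+ κ} (h : ∀ c w, lam (g c * w) = c * lam w) (q : Polynomial κ)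
    (p : Polynomial Ω) : lamP lam (q.map g * p) = q * lamP lam p := by
  ext n
  rw [lamP_coeff, coeff_mul, coeff_mul, map_sum]
  refine Finset.sum_congr rfl fun x _ => ?_
  rw [coeff_map, h, lamP_coeff]

theorem exists_lam : ∃ lam : Ω →+ κ, (∀ c w, lam (g c * w) = c * lam w) ∧ lam 1 = 1 := by
  let _ : Algebra κ Ω := g.toAlgebra
  obtain ⟨g', hg'⟩ := LinearMap.exists_leftInverse_of_injective (Algebra.linearMap κ Ω)
    (LinearMap.ker_eq_bot.2 (algebraMap κ Ω).injective)
  refine ⟨g'.toAddMonoidHom, fun c w => ?_, ?_⟩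
  · show g' (g c * w) = c * g' w
    have h1 : g c * w = c • w := (Algebra.smul_def c w).symm
    rw [h1, map_smul, smul_eq_mul]
  · have h1 := LinearMap.congr_fun hg' 1
    show g' 1 = 1
    have h2 : g' (algebraMap κ Ω 1) = 1 := h1
    rwa [map_one] at h2

/-- divisibility descends -/
theorem dvd_down (a b : WB T) (h : bmap g rfl b ∣ (bmap g rfl a : WB (T.map g))) : b ∣ a := by
  obtain ⟨lam, hlam, h1⟩ := exists_lam g
  obtain ⟨c, hc⟩ := h
  refine ⟨⟨fun j => lamP lam (c.co j)⟩, ?_⟩
  refine WB.ext (funext fun k => ?_)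
  have h2 : lamP lam ((bmap g rfl a : WB (T.map g)).co k) = a.co k := by
    ext n
    rw [lamP_coeff]
    show lam (((a.co k).map g).coeff n) = _
    rw [coeff_map]
    have h3 := hlam ((a.co k).coeff n) 1
    rwa [mul_one, h1, mul_one] at h3
  rw [← h2, hc, WB.co_mul, WB.co_mul, lamP_sum]
  refine Finset.sum_congr rfl fun i _ => ?_
  rw [lamP_sum]
  refine Finset.sum_congr rfl fun j _ => ?_
  show lamP lam ((T.c i j k).map g * ((b.co i).map g * c.co j)) = _
  rw [lamP_mul g hlam, lamP_mul g hlam]

/-- **TORS-2**, second half -/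
theorem ded_down [IsDedekindDomain (WB (T.map g))] : IsDedekindDomain (WB T) := by
  have hno : IsNoetherianRing (WB T) := wb_noeth
  have hdim : Ring.DimensionLEOne (WB T) := ⟨fun {P} h0 hP => wb_dim P h0 hP⟩
  have hinj : Function.Injective (bmap g rfl : WB T →+* WB (T.map g)) := bmap_inj _ _ g.injective
  have hic : IsIntegrallyClosed (WB T) := by
    rw [isIntegrallyClosed_iff (FractionRing (WB T))]
    intro x hx
    obtain ⟨a, b, hb, rfl⟩ := IsFractionRing.div_surjective (A := WB T) x
    let K' := FractionRing (WB (T.map g))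
    let j : WB T →+* K' := (algebraMap (WB (T.map g)) K').comp (bmap g rfl)
    have hj : Function.Injective j := (IsFractionRing.injective (WB (T.map g)) K').comp hinj
    let J : FractionRing (WB T) →+* K' := IsFractionRing.lift hj
    have hJ : ∀ c : WB T, J (algebraMap (WB T) _ c) = j c := fun c => IsFractionRing.lift_algebraMap hj c
    have h1 : IsIntegral (WB (T.map g)) (J (algebraMap (WB T) _ a / algebraMap (WB T) _ b)) := by
      obtain ⟨p, hp, hpx⟩ := hx
      refine ⟨p.map (bmap g rfl), hp.map _, ?_⟩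
      have h2 := congrArg J hpx
      rw [map_zero, Polynomial.hom_eval₂] at h2
      rw [Polynomial.eval₂_map]
      have h3 : (algebraMap (WB (T.map g)) K').comp (bmap g rfl) =
          J.comp (algebraMap (WB T) (FractionRing (WB T))) := by
        refine RingHom.ext fun c => ?_
        exact (hJ c).symm
      rw [h3]
      exact h2
    obtain ⟨c, hc⟩ := (isIntegrallyClosed_iff K').1 inferInstance h1
    have hb0 : b ≠ 0 := nonZeroDivisors.ne_zero hb
    have hjb : j b ≠ 0 := fun h3 => hb0 (hj (by rw [h3, map_zero]))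
    rw [map_div₀, hJ, hJ, eq_div_iff hjb] at hc
    have h4 : c * bmap g rfl b = bmap g rfl a := by
      apply IsFractionRing.injective (WB (T.map g)) K'
      rw [map_mul]
      exact hc
    obtain ⟨y, hy⟩ := dvd_down T g a b ⟨c, by rw [← h4, mul_comm]⟩
    refine ⟨y, ?_⟩
    have hb1 : algebraMap (WB T) (FractionRing (WB T)) b ≠ 0 := by
      intro h3
      exact hb0 (IsFractionRing.injective (WB T) (FractionRing (WB T)) (by rw [h3, map_zero]))
    rw [eq_div_iff hb1, hy, map_mul, mul_comm]
  exact { (inferInstance : IsDomain (WB T)), hno, hdim, hic with }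

end up

end TIFCRV
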