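import Mathlib
import Pool.Agent.TIFCRV.Crv
import Pool.Agent.TIFCRV.Ded0

/-!
# [TIF] TORS-2: smoothness does not depend on the algebraically closed field (statement)
-/

set_option autoImplicit false
set_option linter.unusedSectionVars false

open Polynomial GT

namespace TIFCRV

theorem dedStmt : DedStmt := by
  intro κ Ω _ _ _ _ d _ T g h
  exact ded_up T g

/-- **block CRV** -/
theorem crvStmt : TIF.CrvStmt := crv_of_ded dedStmt

end TIFCRV
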